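import Pool.Agent.Helper1.Lev.Rays

set_option autoImplicit false

/-!
Two-obstacle criterion: every non-edge contains a point that is seen from far away along a
vertical or a horizontal ray, or a point of a given connected set.
-/

namespace Pool.Agent.Helper1.TD

open Pool.Agent.Helper1.Lev

/-- Everything of the drawing on the horizontal line through `m` is strictly to the right of
`m`. -/
def Lft {V : Type} (G : SimpleGraph V) (q : V → ℝ × ℝ) (m : ℝ × ℝ) : Prop :=
  (∀ c d, G.Adj c d → ∀ z ∈ segment ℝ (q c) (q d), z.2 = m.2 → m.1 < z.1) ∧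
    (∀ c, (q c).2 = m.2 → m.1 < (q c).1)

/-- Everything of the drawing on the horizontal line through `m` is strictly to the left of
`m`. -/
def Rgt {V : Type} (G : SimpleGraph V) (q : V → ℝ × ℝ) (m : ℝ × ℝ) : Prop :=
  (∀ c d, G.Adj c d → ∀ z ∈ segment ℝ (q c) (q d), z.2 = m.2 → z.1 < m.1) ∧
    (∀ c, (q c).2 = m.2 → (q c).1 < m.1)

theorem rgt_preconnected (S : Set (ℝ × ℝ)) (M : ℝ) (h1 : ∀ z : ℝ × ℝ, M ≤ z.1 → z ∈ S)
    (h2 : ∀ z ∈ S, ∀ w : ℝ × ℝ, w.2 = z.2 → z.1 ≤ w.1 → w ∈ S) : IsPreconnected S := by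
  have hA : Convex ℝ {z : ℝ × ℝ | M ≤ z.1} := by
    intro z hz w hw a b ha hb hab
    simp only [Set.mem_ofPred_eq, Prod.fst_add, Prod.smul_fst, smul_eq_mul] at *
    exact comb_ge ha hb hab hz hw
  refine isPreconnected_of_forall (M, (0 : ℝ)) ?_
  intro z hz
  have hB : Convex ℝ {w : ℝ × ℝ | w.2 = z.2 ∧ z.1 ≤ w.1} := by
    intro v hv w hw a b ha hb hab
    simp only [Set.mem_ofPred_eq, Prod.snd_add, Prod.smul_snd, smul_eq_mul, Prod.fst_add,
      Prod.smul_fst] at *
    constructor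
    · rw [hv.1, hw.1, ← add_mul, hab, one_mul]
    · exact comb_ge ha hb hab hv.2 hw.2
  refine ⟨{z : ℝ × ℝ | M ≤ z.1} ∪ {w : ℝ × ℝ | w.2 = z.2 ∧ z.1 ≤ w.1}, ?_, ?_, ?_, ?_⟩
  · rintro w (hw | hw)
    · exact h1 w hw
    · exact h2 z hz w hw.1 hw.2
  · left; simp
  · right; simp
  · exact IsPreconnected.union (max z.1 M, z.2) (by simp) (by simp) hA.isPreconnected
      hB.isPreconnected

theorem lft_preconnected (S : Set (ℝ × ℝ)) (M : ℝ) (h1 : ∀ z : ℝ × ℝ, z.1 ≤ -M → z ∈ S)
    (h2 : ∀ z ∈ S, ∀ w : ℝ × ℝ, w.2 = z.2 → w.1 ≤ z.1 → w ∈ S) : IsPreconnected S := by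
  have hA : Convex ℝ {z : ℝ × ℝ | z.1 ≤ -M} := by
    intro z hz w hw a b ha hb hab
    simp only [Set.mem_ofPred_eq, Prod.fst_add, Prod.smul_fst, smul_eq_mul] at *
    exact comb_le ha hb hab hz hw
  refine isPreconnected_of_forall (-M, (0 : ℝ)) ?_
  intro z hz
  have hB : Convex ℝ {w : ℝ × ℝ | w.2 = z.2 ∧ w.1 ≤ z.1} := by
    intro v hv w hw a b ha hb hab
    simp only [Set.mem_ofPred_eq, Prod.snd_add, Prod.smul_snd, smul_eq_mul, Prod.fst_add,
      Prod.smul_fst] at *
    constructor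
    · rw [hv.1, hw.1, ← add_mul, hab, one_mul]
    · exact comb_le ha hb hab hv.2 hw.2
  refine ⟨{z : ℝ × ℝ | z.1 ≤ -M} ∪ {w : ℝ × ℝ | w.2 = z.2 ∧ w.1 ≤ z.1}, ?_, ?_, ?_, ?_⟩
  · rintro w (hw | hw)
    · exact h1 w hw
    · exact h2 z hz w hw.1 hw.2
  · left; simp
  · right; simp
  · exact IsPreconnected.union (min z.1 (-M), z.2) (by simp) (by simp) hA.isPreconnected
      hB.isPreconnected

theorem two_obstacles {V : Type} [Fintype V] (G : SimpleGraph V) (q : V → ℝ × ℝ)
    (O₂ : Set (ℝ × ℝ))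
    (hE : ∀ c d, G.Adj c d → ∀ z ∈ segment ℝ (q c) (q d), z ∉ O₂) (hV : ∀ v, q v ∉ O₂)
    (H : ∀ u v, u ≠ v → ¬ G.Adj u v → ∃ m ∈ segment ℝ (q u) (q v),
      Low G q m ∨ Upp G q m ∨ Lft G q m ∨ Rgt G q m ∨ m ∈ O₂) :
    ∃ O₁ : Set (ℝ × ℝ), IsPreconnected O₁ ∧ (∀ v, q v ∉ O₁ ∪ O₂) ∧
      ∀ u v, u ≠ v → (G.Adj u v ↔ Disjoint (segment ℝ (q u) (q v)) (O₁ ∪ O₂)) := by
  classical
  obtain ⟨M0, hM0⟩ := (Finset.univ.image (fun v : V => max |(q v).1| |(q v).2|)).exists_le
  have hM : ∀ v, |(q v).1| < M0 + 1 ∧ |(q v).2| < M0 + 1 := by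
    intro v
    have := hM0 _ (Finset.mem_image_of_mem _ (Finset.mem_univ v))
    have h1 := le_max_left |(q v).1| |(q v).2|
    have h2 := le_max_right |(q v).1| |(q v).2|
    constructor <;> linarith
  set M := M0 + 1 with hMdef
  have hseg : ∀ c d, ∀ z ∈ segment ℝ (q c) (q d), |z.1| < M ∧ |z.2| < M := fun c d z hz =>
    seg_bound hz M (hM c) (hM d)
  have hleft : ∀ z : ℝ × ℝ, z.1 ≤ -M → Low G q z ∧ Upp G q z ∧ Lft G q z := by
    intro z hz
    refine ⟨⟨?_, ?_⟩, ⟨?_, ?_⟩, ⟨?_, ?_⟩⟩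
    · intro c d _ w hw e
      have := (abs_lt.1 (hseg c d w hw).1).1
      linarith
    · intro c e
      have := (abs_lt.1 (hM c).1).1
      linarith
    · intro c d _ w hw e
      have := (abs_lt.1 (hseg c d w hw).1).1
      linarith
    · intro c e
      have := (abs_lt.1 (hM c).1).1
      linarith
    · intro c d _ w hw e
      have := (abs_lt.1 (hseg c d w hw).1).1
      linarith
    · intro c e
      have := (abs_lt.1 (hM c).1).1
      linarith
  have hlow : IsPreconnected {z | Low G q z} := by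
    refine low_preconnected _ M ?_ ?_
    · intro z hz
      refine ⟨?_, ?_⟩
      · intro c d _ w hw _
        have := (abs_lt.1 (hseg c d w hw).2).1
        linarith
      · intro c _
        have := (abs_lt.1 (hM c).2).1
        linarith
    · intro z hz w hw1 hw2
      refine ⟨?_, ?_⟩
      · intro c d hcd y hy e
        have := hz.1 c d hcd y hy (by rw [e, hw1])
        linarith
      · intro c e
        have := hz.2 c (by rw [e, hw1])
        linarith
  have hupp : IsPreconnected {z | Upp G q z} := by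
    refine upp_preconnected _ M ?_ ?_
    · intro z hz
      refine ⟨?_, ?_⟩
      · intro c d _ w hw _
        have := (abs_lt.1 (hseg c d w hw).2).2
        linarith
      · intro c _
        have := (abs_lt.1 (hM c).2).2
        linarith
    · intro z hz w hw1 hw2
      refine ⟨?_, ?_⟩
      · intro c d hcd y hy e
        have := hz.1 c d hcd y hy (by rw [e, hw1])
        linarith
      · intro c e
        have := hz.2 c (by rw [e, hw1])
        linarith
  have hlft : IsPreconnected {z | Lft G q z} := by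
    refine lft_preconnected _ M ?_ ?_
    · intro z hz
      exact (hleft z hz).2.2
    · intro z hz w hw1 hw2
      refine ⟨?_, ?_⟩
      · intro c d hcd y hy e
        have := hz.1 c d hcd y hy (by rw [e, hw1])
        linarith
      · intro c e
        have := hz.2 c (by rw [e, hw1])
        linarith
  have hright : ∀ z : ℝ × ℝ, M ≤ z.1 → Low G q z ∧ Rgt G q z := by
    intro z hz
    refine ⟨⟨?_, ?_⟩, ⟨?_, ?_⟩⟩
    · intro c d _ w hw e
      have := (abs_lt.1 (hseg c d w hw).1).2
      linarith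
    · intro c e
      have := (abs_lt.1 (hM c).1).2
      linarith
    · intro c d _ w hw e
      have := (abs_lt.1 (hseg c d w hw).1).2
      linarith
    · intro c e
      have := (abs_lt.1 (hM c).1).2
      linarith
  have hrgt : IsPreconnected {z | Rgt G q z} := by
    refine rgt_preconnected _ M ?_ ?_
    · intro z hz
      exact (hright z hz).2
    · intro z hz w hw1 hw2
      refine ⟨?_, ?_⟩
      · intro c d hcd y hy e
        have := hz.1 c d hcd y hy (by rw [e, hw1])
        linarith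
      · intro c e
        have := hz.2 c (by rw [e, hw1])
        linarith
  have h0 := hleft (-M, 0) le_rfl
  have h0' := hright (M, 0) le_rfl
  refine ⟨({z | Low G q z} ∪ {z | Upp G q z} ∪ {z | Lft G q z}) ∪ {z | Rgt G q z}, ?_, ?_, ?_⟩
  · refine IsPreconnected.union (M, 0) (Or.inl (Or.inl h0'.1)) h0'.2 ?_ hrgt
    exact IsPreconnected.union (-M, 0) (Or.inl h0.1) h0.2.2
      (IsPreconnected.union (-M, 0) h0.1 h0.2.1 hlow hupp) hlft
  · rintro v ((((h | h) | h) | h) | h)
    · exact lt_irrefl _ (h.2 v rfl)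
    · exact lt_irrefl _ (h.2 v rfl)
    · exact lt_irrefl _ (h.2 v rfl)
    · exact lt_irrefl _ (h.2 v rfl)
    · exact hV v h
  · intro u v huv
    constructor
    · intro hadj
      rw [Set.disjoint_left]
      rintro z hz ((((h | h) | h) | h) | h)
      · exact lt_irrefl _ (h.1 u v hadj z hz rfl)
      · exact lt_irrefl _ (h.1 u v hadj z hz rfl)
      · exact lt_irrefl _ (h.1 u v hadj z hz rfl)
      · exact lt_irrefl _ (h.1 u v hadj z hz rfl)
      · exact hE u v hadj z hz h
    · intro hdis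
      by_contra hnadj
      obtain ⟨m, hm, hm'⟩ := H u v huv hnadj
      rcases hm' with h | h | h | h | h
      · exact Set.disjoint_left.1 hdis hm (Or.inl (Or.inl (Or.inl (Or.inl h))))
      · exact Set.disjoint_left.1 hdis hm (Or.inl (Or.inl (Or.inl (Or.inr h))))
      · exact Set.disjoint_left.1 hdis hm (Or.inl (Or.inl (Or.inr h)))
      · exact Set.disjoint_left.1 hdis hm (Or.inl (Or.inr h))
      · exact Set.disjoint_left.1 hdis hm (Or.inr h)

end Pool.Agent.Helper1.TD
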