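import Pool.Agent.Helper1.TD.Crit

set_option autoImplicit false

/-!
Geometry of the drawing with two tips.
-/

namespace Pool.Agent.Helper1.TD

open Pool.Agent.Helper1.Lev

/-- `v` is drawn at abscissa `x v` and at height `s v * (1 + δ * D v)`. -/
def pt {V : Type} (x s D : V → ℝ) (δ : ℝ) (v : V) : ℝ × ℝ := (x v, s v * (1 + δ * D v))

theorem comb_lt {a b x y B : ℝ} (ha : 0 ≤ a) (hb : 0 ≤ b) (hab : a + b = 1) (hx : x < B)
    (hy : y < B) : a * x + b * y < B := by
  rcases eq_or_lt_of_le ha with h0 | h0
  · rw [← h0] at hab ⊢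
    have : b = 1 := by linarith
    rw [this]; linarith
  · have h1 := mul_lt_mul_of_pos_left hx h0
    have h2 := mul_le_mul_of_nonneg_left hy.le hb
    have e : a * B + b * B = B := by rw [← add_mul, hab, one_mul]
    linarith

/-- A non-edge of the lower group is seen from below at the abscissa `ξ`. -/
theorem low_side {V : Type} (G : SimpleGraph V) (x s D : V → ℝ) (δ : ℝ) (hδ : 0 < δ)
    (hs : ∀ v, s v = 1 ∨ s v = -1) (hD : ∀ v, 0 ≤ D v)
    (hinj : ∀ u v, s u = s v → x u = x v → u = v)
    (u v : V) (hu : s u = -1) (hv : s v = -1) (ξ : ℝ) (h1 : x u < ξ)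
    (h2 : ξ < x v) (E : ℝ)
    (hE : E * (x v - x u) = (x v - ξ) * D u + (ξ - x u) * D v)
    (hEk : ∀ k, s k = -1 → x k = ξ → D k < E)
    (hEe : ∀ c e, G.Adj c e → s c = -1 → s e = -1 → x c < ξ → ξ < x e → D c < E ∧ D e < E)
    (hc : ∀ c e, s c = -1 → s e = 1 → x c ≠ ξ → δ * D c * |x e - x c| < 2 * |ξ - x c|) :
    ∃ m ∈ segment ℝ (pt x s D δ u) (pt x s D δ v), Low G (pt x s D δ) m := by
  have hpos : 0 < x v - x u := by linarith
  have hE0 : 0 ≤ E := by
    have h3 : 0 ≤ (x v - ξ) * D u := mul_nonneg (by linarith) (hD u)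
    have h4 : 0 ≤ (ξ - x u) * D v := mul_nonneg (by linarith) (hD v)
    by_contra h
    have : E * (x v - x u) < 0 := mul_neg_of_neg_of_pos (not_le.1 h) hpos
    linarith
  refine ⟨(ξ, -(1 + δ * E)), ?_, ?_, ?_⟩
  · refine ⟨(x v - ξ) / (x v - x u), (ξ - x u) / (x v - x u), ?_, ?_, ?_, ?_⟩
    · exact div_nonneg (by linarith) hpos.le
    · exact div_nonneg (by linarith) hpos.le
    · rw [← add_div]
      rw [div_eq_one_iff_eq hpos.ne']
      ring
    · ext
      · simp only [pt, Prod.fst_add, Prod.smul_fst, smul_eq_mul]
        field_simp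
        ring
      · simp only [pt, Prod.snd_add, Prod.smul_snd, smul_eq_mul, hu, hv]
        have e1 : E = ((x v - ξ) * D u + (ξ - x u) * D v) / (x v - x u) := by
          rw [eq_div_iff hpos.ne']; exact hE
        rw [e1]
        field_simp
        ring
  · -- edges
    have hcross : ∀ c e, s c = -1 → s e = 1 → ∀ z ∈ segment ℝ (pt x s D δ c) (pt x s D δ e),
        z.1 = ξ → -(1 + δ * E) < z.2 := by
      intro c e h3 h4 z hz hz1
      obtain ⟨a, b, ha, hb, hab, rfl⟩ := hz
      simp only [pt, Prod.snd_add, Prod.smul_snd, smul_eq_mul, Prod.fst_add, Prod.smul_fst,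
        h3, h4] at hz1 ⊢
      have ha' : a = 1 - b := by linarith
      subst ha'
      have hDe := hD e
      have hbD : 0 ≤ b * (2 + δ * (D c + D e)) := by
        have := hD c
        positivity
      by_cases hck : x c = ξ
      · have h5 := hEk c h3 hck
        have : 0 < δ * (E - D c) := mul_pos hδ (by linarith)
        nlinarith
      · have h5 := hc c e h3 h4 hck
        have h6 : ξ - x c = b * (x e - x c) := by linarith
        rw [h6, abs_mul, abs_of_nonneg hb] at h5
        have h7 : 0 < |x e - x c| := by
          rw [abs_pos]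
          intro h8
          rw [h8, mul_zero] at h6
          exact hck (by linarith)
        have h8 : δ * D c < 2 * b := by
          have : δ * D c * |x e - x c| < 2 * b * |x e - x c| := by linarith
          exact lt_of_mul_lt_mul_right this h7.le
        have h9 : 0 ≤ b * (δ * (D c + D e)) := by
          have := hD c
          positivity
        have h10 : 0 ≤ δ * E := by positivity
        nlinarith
    intro c e hce z hz hz1
    show -(1 + δ * E) < z.2
    rcases hs c with h3 | h3 <;> rcases hs e with h4 | h4
    · obtain ⟨a, b, ha, hb, hab, rfl⟩ := hz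
      simp only [pt, Prod.snd_add, Prod.smul_snd, smul_eq_mul, h3, h4]
      have h5 := hD c
      have h6 := hD e
      have : 0 ≤ a * (1 * (1 + δ * D c)) + b * (1 * (1 + δ * D e)) := by positivity
      have : 0 ≤ δ * E := by positivity
      linarith
    · rw [segment_symm] at hz
      exact hcross e c h4 h3 z hz hz1
    · exact hcross c e h3 h4 z hz hz1
    · have hne : c ≠ e := hce.ne
      obtain ⟨a, b, ha, hb, hab, rfl⟩ := hz
      simp only [pt, Prod.snd_add, Prod.smul_snd, smul_eq_mul, Prod.fst_add, Prod.smul_fst,
        h3, h4] at hz1 ⊢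
      have hlt : a * D c + b * D e < E := by
        by_cases hck : x c = ξ
        · have hkc := hEk c h3 hck
          by_cases hek : x e = ξ
          · exact absurd (hinj c e (by rw [h3, h4]) (by rw [hck, hek])) hne
          · have hb0 : b * (x e - ξ) = 0 := by
              have : a = 1 - b := by linarith
              subst this
              rw [hck] at hz1
              linarith
            rcases mul_eq_zero.1 hb0 with h5 | h5
            · rw [h5] at hab ⊢
              have : a = 1 := by linarith
              rw [this]; linarith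
            · exact absurd (by linarith) hek
        · by_cases hek : x e = ξ
          · have hke := hEk e h4 hek
            have ha0 : a * (x c - ξ) = 0 := by
              have : b = 1 - a := by linarith
              subst this
              rw [hek] at hz1
              linarith
            rcases mul_eq_zero.1 ha0 with h5 | h5
            · rw [h5] at hab ⊢
              have : b = 1 := by linarith
              rw [this]; linarith
            · exact absurd (by linarith) hck
          · rcases lt_or_gt_of_ne hck with h5 | h5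
            · rcases lt_or_gt_of_ne hek with h6 | h6
              · exfalso
                have := comb_lt ha hb hab h5 h6
                linarith
              · have := hEe c e hce h3 h4 h5 h6
                exact comb_lt ha hb hab this.1 this.2
            · rcases lt_or_gt_of_ne hek with h6 | h6
              · have := hEe e c hce.symm h4 h3 h6 h5
                exact comb_lt ha hb hab this.2 this.1
              · exfalso
                have := comb_lt ha hb hab (neg_lt_neg h5) (neg_lt_neg h6)
                linarith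
      have h7 : δ * (a * D c + b * D e) < δ * E := mul_lt_mul_of_pos_left hlt hδ
      nlinarith
  · intro c hc1
    show -(1 + δ * E) < (pt x s D δ c).2
    simp only [pt] at hc1 ⊢
    rcases hs c with h3 | h3
    · rw [h3]
      have := hD c
      have h5 : 0 ≤ δ * D c := by positivity
      have : 0 ≤ δ * E := by positivity
      linarith
    · have h5 := hEk c h3 hc1
      rw [h3]
      have h7 : δ * D c < δ * E := mul_lt_mul_of_pos_left h5 hδ
      linarith

theorem pt_neg {V : Type} (x s D : V → ℝ) (δ : ℝ) (v : V) :
    pt x (fun v => - s v) D δ v = ((pt x s D δ v).1, - (pt x s D δ v).2) := by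
  simp [pt]

theorem seg_refl {p q z : ℝ × ℝ} (hz : z ∈ segment ℝ p q) :
    (z.1, -z.2) ∈ segment ℝ (p.1, -p.2) (q.1, -q.2) := by
  obtain ⟨a, b, ha, hb, hab, rfl⟩ := hz
  refine ⟨a, b, ha, hb, hab, ?_⟩
  ext
  · simp
  · simp; ring

/-- A non-edge of the upper group is seen from above at the abscissa `ξ`. -/
theorem upp_side {V : Type} (G : SimpleGraph V) (x s D : V → ℝ) (δ : ℝ) (hδ : 0 < δ)
    (hs : ∀ v, s v = 1 ∨ s v = -1) (hD : ∀ v, 0 ≤ D v)
    (hinj : ∀ u v, s u = s v → x u = x v → u = v)
    (u v : V) (hu : s u = 1) (hv : s v = 1) (ξ : ℝ) (h1 : x u < ξ)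
    (h2 : ξ < x v) (E : ℝ)
    (hE : E * (x v - x u) = (x v - ξ) * D u + (ξ - x u) * D v)
    (hEk : ∀ k, s k = 1 → x k = ξ → D k < E)
    (hEe : ∀ c e, G.Adj c e → s c = 1 → s e = 1 → x c < ξ → ξ < x e → D c < E ∧ D e < E)
    (hc : ∀ c e, s c = 1 → s e = -1 → x c ≠ ξ → δ * D c * |x e - x c| < 2 * |ξ - x c|) :
    ∃ m ∈ segment ℝ (pt x s D δ u) (pt x s D δ v), Upp G (pt x s D δ) m := by
  obtain ⟨m, hm, hm'⟩ := low_side G x (fun v => - s v) D δ hδ
    (fun v => by rcases hs v with h | h <;> simp [h]) hD
    (fun u v h h' => hinj u v (by linarith [h]) h') u v (by simp [hu]) (by simp [hv])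
    ξ h1 h2 E hE (fun k h3 h4 => hEk k (by linarith [h3]) h4)
    (fun c e hce h3 h4 => hEe c e hce (by linarith [h3]) (by linarith [h4]))
    (fun c e h3 h4 => hc c e (by linarith [h3]) (by linarith [h4]))
  refine ⟨(m.1, -m.2), ?_, ?_, ?_⟩
  · have := seg_refl hm
    simpa [pt] using this
  · intro c d hcd z hz hz1
    have h3 := seg_refl hz
    have h4 := hm'.1 c d hcd (z.1, -z.2) (by rw [pt_neg, pt_neg]; exact h3) hz1
    have h5 : m.2 < -z.2 := h4
    show z.2 < -m.2
    linarith
  · intro c hc1
    have h4 := hm'.2 c (by rw [pt_neg]; exact hc1)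
    rw [pt_neg] at h4
    have h5 : m.2 < -(pt x s D δ c).2 := h4
    show (pt x s D δ c).2 < -m.2
    linarith

end Pool.Agent.Helper1.TD
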