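import Pool.Agent.Helper1.TD.Rot

set_option autoImplicit false

/-!
Graphs whose components are induced subgraphs of two-disc triangulations.
-/

namespace Pool.Agent.Helper1.TD

theorem components_two_obstacles {V : Type} [Fintype V] (G : SimpleGraph V)
    (hG : ∀ c : G.ConnectedComponent, ∃ (p q : ℕ) (P : SimpleGraph (Fin p))
      (Q : SimpleGraph (Fin q)) (α β : ℕ → ℕ), Tri P ∧ Tri Q ∧ Annular p q α β ∧
      ∃ f : c.supp → Fin p ⊕ Fin q, Function.Injective f ∧
        ∀ u v : c.supp, G.Adj u v ↔ crel P Q α β (f u) (f v)) :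
    ∃ (q : V → ℝ × ℝ) (O₁ O₂ : Set (ℝ × ℝ)),
      Function.Injective q ∧ IsPreconnected O₁ ∧ IsPreconnected O₂ ∧
      (∀ v : V, q v ∉ O₁ ∪ O₂) ∧
      (∀ u v : V, u ≠ v → (G.Adj u v ↔ Disjoint (segment ℝ (q u) (q v)) (O₁ ∪ O₂))) := by
  classical
  have key : ∀ c : G.ConnectedComponent, ∃ (T : Ann) (f : c.supp → Fin T.p ⊕ Fin T.q),
      Function.Injective f ∧ ∀ u v : c.supp, G.Adj u v ↔ T.graph.Adj (f u) (f v) := by
    intro c
    obtain ⟨p, q, P, Q, α, β, hP, hQ, h, f, hf, hadj⟩ := hG c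
    obtain ⟨T, g, hg, hadj'⟩ := rot_emb P Q α β hP hQ h
    exact ⟨T, g ∘ f, hg.comp hf, fun u v => (hadj u v).trans (hadj' _ _)⟩
  choose T f hf hadj using key
  have : Fintype G.ConnectedComponent := Fintype.ofFinite _
  let F : V → VV T := fun v => ⟨G.connectedComponentMk v, f _ ⟨v, rfl⟩⟩
  have hF : ∀ (c : G.ConnectedComponent) (v : V) (h : v ∈ c.supp), F v = ⟨c, f c ⟨v, h⟩⟩ := by
    intro c v h
    obtain rfl : G.connectedComponentMk v = c := h
    rfl
  have hF1 : ∀ v, (F v).1 = G.connectedComponentMk v := fun v => rfl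
  have hFinj : Function.Injective F := by
    intro u v huv
    have h1 : G.connectedComponentMk u = G.connectedComponentMk v := congrArg Sigma.fst huv
    rw [hF (G.connectedComponentMk v) u h1, hF (G.connectedComponentMk v) v rfl] at huv
    have := hf _ (eq_of_heq (Sigma.mk.inj huv).2)
    exact congrArg Subtype.val this
  have hFadj : ∀ u v, G.Adj u v ↔ (uni T).Adj (F u) (F v) := by
    intro u v
    by_cases h1 : G.connectedComponentMk u = G.connectedComponentMk v
    · rw [hF (G.connectedComponentMk v) u h1, hF (G.connectedComponentMk v) v rfl, uni_adj]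
      exact hadj _ ⟨u, h1⟩ ⟨v, rfl⟩
    · constructor
      · intro h
        exact absurd (SimpleGraph.ConnectedComponent.sound h.reachable) h1
      · intro h
        exact absurd (uni_comp T h) h1
  obtain ⟨q, O₁, O₂, g1, g2, g3, g4, g5⟩ := union_two_obstacles T
  refine ⟨q ∘ F, O₁, O₂, g1.comp hFinj, g2, g3, fun v => g4 (F v), ?_⟩
  intro u v huv
  rw [hFadj u v]
  exact g5 _ _ (fun h => huv (hFinj h))

end Pool.Agent.Helper1.TD
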