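import Mathlib

set_option autoImplicit false

/-!
Triangulated polygons: nesting depth and exposed vertices.
-/

namespace Pool.Agent.Helper1.TD

/-- A maximal set of pairwise non-crossing chords and sides of the polygon `0, …, p-1`. -/
def Tri {p : ℕ} (P : SimpleGraph (Fin p)) : Prop :=
  (∀ i j k l : Fin p, i < j → j < k → k < l → P.Adj i k → ¬ P.Adj j l) ∧
  (∀ i k : Fin p, i < k → ¬ P.Adj i k → ∃ j l : Fin p, P.Adj j l ∧ i < j ∧ j < k ∧
    (l < i ∨ k < l))

open Classical in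
/-- the number of edges over `i` -/
noncomputable def nest {p : ℕ} (P : SimpleGraph (Fin p)) (i : Fin p) : ℕ :=
  (Finset.univ.filter (fun ce : Fin p × Fin p => P.Adj ce.1 ce.2 ∧ ce.1 < i ∧ i < ce.2)).card

theorem nest_lt {p : ℕ} {P : SimpleGraph (Fin p)} (hP : Tri P) {c i e : Fin p}
    (h : P.Adj c e) (h1 : c < i) (h2 : i < e) : nest P c < nest P i ∧ nest P e < nest P i := by
  classical
  constructor
  · apply Finset.card_lt_card
    rw [Finset.ssubset_iff_of_subset]
    · refine ⟨(c, e), ?_, ?_⟩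
      · simp [h, h1, h2]
      · simp
    · rintro ⟨c', e'⟩ hce
      simp only [Finset.mem_filter, Finset.mem_univ, true_and] at hce ⊢
      obtain ⟨g1, g2, g3⟩ := hce
      refine ⟨g1, g2.trans h1, ?_⟩
      by_contra hlt
      rcases lt_or_ge e' e with h3 | h3
      · exact hP.1 c' c e' e g2 g3 h3 g1 h
      · exact hlt (lt_of_lt_of_le h2 h3)
  · apply Finset.card_lt_card
    rw [Finset.ssubset_iff_of_subset]
    · refine ⟨(c, e), ?_, ?_⟩
      · simp [h, h1, h2]
      · simp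
    · rintro ⟨c', e'⟩ hce
      simp only [Finset.mem_filter, Finset.mem_univ, true_and] at hce ⊢
      obtain ⟨g1, g2, g3⟩ := hce
      refine ⟨g1, ?_, h2.trans g3⟩
      by_contra hlt
      rcases lt_or_ge c c' with h3 | h3
      · exact hP.1 c c' e e' h3 g2 g3 h g1
      · exact hlt (lt_of_le_of_lt h3 h1)

theorem side {p : ℕ} {P : SimpleGraph (Fin p)} (hP : Tri P) {i j : Fin p}
    (h : i.val + 1 = j.val) : P.Adj i j := by
  by_contra hn
  obtain ⟨k, l, -, h1, h2, -⟩ := hP.2 i j (by rw [Fin.lt_def]; omega) hn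
  rw [Fin.lt_def] at h1 h2
  omega

theorem apex {p : ℕ} {P : SimpleGraph (Fin p)} (hP : Tri P) {a m b : Fin p}
    (h : P.Adj a b) (h1 : a < m) (h2 : m < b) : ∃ k, a < k ∧ k < b ∧ P.Adj a k ∧ P.Adj k b := by
  classical
  have hs : P.Adj a ⟨a.val + 1, by have := m.isLt; rw [Fin.lt_def] at h1; omega⟩ := side hP rfl
  have hne : (Finset.univ.filter (fun k : Fin p => a < k ∧ k < b ∧ P.Adj a k)).Nonempty := by
    refine ⟨⟨a.val + 1, by have := m.isLt; rw [Fin.lt_def] at h1; omega⟩, ?_⟩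
    simp only [Finset.mem_filter, Finset.mem_univ, true_and]
    refine ⟨?_, ?_, hs⟩
    · rw [Fin.lt_def]; simp
    · rw [Fin.lt_def] at h1 h2 ⊢
      simp only
      omega
  obtain ⟨hk1, hk2, hk3⟩ := by
    have := Finset.max'_mem _ hne
    simpa only [Finset.mem_filter, Finset.mem_univ, true_and] using this
  set k := Finset.max' _ hne with hk
  have hmax : ∀ k', a < k' → k' < b → P.Adj a k' → k' ≤ k := by
    intro k' g1 g2 g3
    apply Finset.le_max'
    simp only [Finset.mem_filter, Finset.mem_univ, true_and]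
    exact ⟨g1, g2, g3⟩
  refine ⟨k, hk1, hk2, hk3, ?_⟩
  by_contra hn
  obtain ⟨j, l, g1, g2, g3, g4⟩ := hP.2 k b hk2 hn
  rcases g4 with g4 | g4
  · rcases lt_trichotomy l a with g5 | g5 | g5
    · exact hP.1 l a j b g5 (hk1.trans g2) g3 g1.symm h
    · subst g5
      exact absurd (hmax j (hk1.trans g2) g3 g1.symm) (not_le.2 g2)
    · exact hP.1 a l k j g5 g4 g2 hk3 g1.symm
  · exact hP.1 a j b l (hk1.trans g2) g3 g4 h g1

/-- the exposed vertex for a non-edge -/
theorem exposed {p : ℕ} {P : SimpleGraph (Fin p)} (hP : Tri P) {i j : Fin p} (hij : i < j)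
    (hn : ¬ P.Adj i j) : ∃ k, i < k ∧ k < j ∧ ∃ w, (w = i ∨ w = j) ∧ nest P k < nest P w ∧
      ∀ c e, P.Adj c e → c < k → k < e → nest P c < nest P w ∧ nest P e < nest P w := by
  classical
  have hp : 2 ≤ p := by
    have := j.isLt
    rw [Fin.lt_def] at hij
    omega
  -- minimal cover
  have hcov : ∃ n : ℕ, ∃ a b : Fin p, b.val - a.val = n ∧ a ≤ i ∧ j ≤ b ∧ P.Adj a b := by
    refine ⟨_, ⟨0, by omega⟩, ⟨p - 1, by omega⟩, rfl, ?_, ?_, ?_⟩
    · rw [Fin.le_def]; simp
    · rw [Fin.le_def]; simp only; have := j.isLt; omega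
    · by_contra h
      obtain ⟨k, l, -, -, -, h3⟩ := hP.2 _ _ (by rw [Fin.lt_def]; simp only; omega) h
      rcases h3 with h3 | h3 <;> rw [Fin.lt_def] at h3 <;> simp only at h3
      · omega
      · have := l.isLt; omega
  obtain ⟨a, b, hab, hai, hjb, hadj⟩ := Nat.find_spec hcov
  have hmin : ∀ a' b' : Fin p, a' ≤ i → j ≤ b' → P.Adj a' b' → b.val - a.val ≤ b'.val - a'.val := by
    intro a' b' g1 g2 g3
    rw [hab]
    exact Nat.find_min' hcov ⟨a', b', rfl, g1, g2, g3⟩
  have hne : ¬ (a = i ∧ b = j) := by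
    rintro ⟨rfl, rfl⟩
    exact hn hadj
  have hm : ∃ m, a < m ∧ m < b := by
    rcases eq_or_lt_of_le hai with h | h
    · rcases eq_or_lt_of_le hjb with h' | h'
      · exact absurd ⟨h, h'.symm⟩ hne
      · exact ⟨j, lt_of_le_of_lt hai hij, h'⟩
    · exact ⟨i, h, lt_of_lt_of_le hij hjb⟩
  obtain ⟨m, hm1, hm2⟩ := hm
  obtain ⟨k, hk1, hk2, hk3, hk4⟩ := apex hP hadj hm1 hm2
  have hik : i < k := by
    by_contra h
    have := hmin k b (not_lt.1 h) hjb hk4
    rw [Fin.lt_def] at hk1 hk2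
    omega
  have hkj : k < j := by
    by_contra h
    have := hmin a k hai (not_lt.1 h) hk3
    rw [Fin.lt_def] at hk1 hk2
    omega
  refine ⟨k, hik, hkj, ?_⟩
  rcases eq_or_lt_of_le hai with h | h
  · have hjb' : j < b := lt_of_le_of_ne hjb (fun h' => hne ⟨h, h'.symm⟩)
    refine ⟨j, Or.inr rfl, (nest_lt hP hk4 hkj hjb').1, ?_⟩
    intro c e hce g1 g2
    have hbe : b ≤ e := by
      by_contra hlt
      exact hP.1 c k e b g1 g2 (not_le.1 hlt) hce hk4
    exact nest_lt hP hce (g1.trans hkj) (lt_of_lt_of_le hjb' hbe)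
  · refine ⟨i, Or.inl rfl, (nest_lt hP hk3 h hik).2, ?_⟩
    intro c e hce g1 g2
    have hca : c ≤ a := by
      by_contra hlt
      exact hP.1 a c k e (not_le.1 hlt) g1 g2 hk3 hce
    exact nest_lt hP hce (lt_of_le_of_lt hca h) (hik.trans g2)

end Pool.Agent.Helper1.TD
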