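import Pool.Agent.Helper1.TD.Union

set_option autoImplicit false

/-!
Rotations of triangulated polygons; the annular strip in cyclic form.
-/

namespace Pool.Agent.Helper1.TD

/-- rotation by one -/
def rot1 {p : ℕ} (i : Fin p) : Fin p :=
  ⟨(i.val + 1) % p, Nat.mod_lt _ (by have := i.isLt; omega)⟩

theorem rot1_val {p : ℕ} (i : Fin p) :
    (i.val + 1 < p ∧ (rot1 i).val = i.val + 1) ∨ (i.val + 1 = p ∧ (rot1 i).val = 0) := by
  have := i.isLt
  rcases Nat.lt_or_ge (i.val + 1) p with h | h
  · left
    exact ⟨h, Nat.mod_eq_of_lt h⟩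
  · right
    have e : i.val + 1 = p := by omega
    refine ⟨e, ?_⟩
    show (i.val + 1) % p = 0
    rw [e, Nat.mod_self]

theorem rot1_surj {p : ℕ} (j : Fin p) : ∃ i : Fin p, rot1 i = j ∧
    ((j.val = 0 ∧ i.val + 1 = p) ∨ (j.val = i.val + 1)) := by
  have := j.isLt
  rcases Nat.eq_zero_or_pos j.val with h | h
  · refine ⟨⟨p - 1, by omega⟩, ?_, Or.inl ⟨h, by simp only; omega⟩⟩
    apply Fin.ext
    rcases rot1_val (⟨p - 1, by omega⟩ : Fin p) with g | g
    · have := g.1; simp only at this; omega
    · rw [g.2, h]
  · refine ⟨⟨j.val - 1, by omega⟩, ?_, Or.inr (by simp only; omega)⟩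
    apply Fin.ext
    rcases rot1_val (⟨j.val - 1, by omega⟩ : Fin p) with g | g
    · rw [g.2]; simp only; omega
    · have := g.1; simp only at this; omega

theorem tri_rot1 {p : ℕ} {P : SimpleGraph (Fin p)} (hP : Tri P) : Tri (P.comap rot1) := by
  constructor
  · intro i j k l hij hjk hkl h1 h2
    rw [SimpleGraph.comap_adj] at h1 h2
    rw [Fin.lt_def] at hij hjk hkl
    have li := l.isLt
    rcases rot1_val i with a | a
    swap
    · omega
    rcases rot1_val j with b | b
    swap
    · omega
    rcases rot1_val k with c | c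
    swap
    · omega
    rcases rot1_val l with d | d
    · exact hP.1 _ _ _ _ (by rw [Fin.lt_def]; omega) (by rw [Fin.lt_def]; omega)
        (by rw [Fin.lt_def]; omega) h1 h2
    · exact hP.1 (rot1 l) (rot1 i) (rot1 j) (rot1 k) (by rw [Fin.lt_def]; omega)
        (by rw [Fin.lt_def]; omega) (by rw [Fin.lt_def]; omega) h2.symm h1
  · intro i k hik hn
    rw [SimpleGraph.comap_adj] at hn
    rw [Fin.lt_def] at hik
    have ki := k.isLt
    rcases rot1_val i with a | a
    swap
    · omega
    rcases rot1_val k with b | b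
    · obtain ⟨j, l, h1, h2, h3, h4⟩ := hP.2 (rot1 i) (rot1 k) (by rw [Fin.lt_def]; omega) hn
      obtain ⟨j', rfl, hj⟩ := rot1_surj j
      obtain ⟨l', rfl, hl⟩ := rot1_surj l
      rw [Fin.lt_def] at h2 h3
      refine ⟨j', l', h1, ?_, ?_, ?_⟩
      · rw [Fin.lt_def]; omega
      · rw [Fin.lt_def]; omega
      · rcases h4 with h4 | h4
        · rw [Fin.lt_def] at h4
          rcases hl with hl | hl
          · right; rw [Fin.lt_def]; omega
          · left; rw [Fin.lt_def]; omega
        · rw [Fin.lt_def] at h4
          right; rw [Fin.lt_def]; omega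
    · obtain ⟨j, l, h1, h2, h3, h4⟩ := hP.2 (rot1 k) (rot1 i) (by rw [Fin.lt_def]; omega)
        (fun h => hn h.symm)
      obtain ⟨j', rfl, hj⟩ := rot1_surj j
      obtain ⟨l', rfl, hl⟩ := rot1_surj l
      rw [Fin.lt_def] at h2 h3
      rcases h4 with h4 | h4
      · rw [Fin.lt_def] at h4; omega
      · rw [Fin.lt_def] at h4
        refine ⟨l', j', h1.symm, ?_, ?_, Or.inl ?_⟩
        · rw [Fin.lt_def]; omega
        · rw [Fin.lt_def]
          have : (rot1 l').val ≠ 0 := by omega
          have := l'.isLt
          have : l'.val ≠ k.val := by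
            intro e
            have : l' = k := Fin.ext e
            subst this
            omega
          omega
        · rw [Fin.lt_def]; omega

/-- rotation by `r` -/
def rot {p : ℕ} (r : ℕ) (i : Fin p) : Fin p :=
  ⟨(i.val + r) % p, Nat.mod_lt _ (by have := i.isLt; omega)⟩

theorem rot_succ {p : ℕ} (r : ℕ) (i : Fin p) : rot (r + 1) i = rot r (rot1 i) := by
  apply Fin.ext
  show (i.val + (r + 1)) % p = ((i.val + 1) % p + r) % p
  rw [Nat.mod_add_mod]
  congr 1
  omega

theorem rot_zero {p : ℕ} (i : Fin p) : rot 0 i = i := by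
  apply Fin.ext
  show (i.val + 0) % p = i.val
  rw [Nat.add_zero, Nat.mod_eq_of_lt i.isLt]

theorem tri_rot {p : ℕ} (r : ℕ) : ∀ {P : SimpleGraph (Fin p)}, Tri P → Tri (P.comap (rot r)) := by
  induction r with
  | zero =>
    intro P hP
    have : P.comap (rot 0) = P := by
      ext i j
      rw [SimpleGraph.comap_adj, rot_zero, rot_zero]
    rw [this]; exact hP
  | succ r ih =>
    intro P hP
    have : P.comap (rot (r + 1)) = (P.comap (rot r)).comap rot1 := by
      ext i j
      simp only [SimpleGraph.comap_adj, rot_succ]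
    rw [this]
    exact tri_rot1 (ih hP)

theorem rot_inj {p : ℕ} (r : ℕ) : Function.Injective (rot r : Fin p → Fin p) := by
  intro i j h
  have h1 : (i.val + r) % p = (j.val + r) % p := congrArg Fin.val h
  have h2 : i.val ≡ j.val [MOD p] := Nat.ModEq.add_right_cancel' r h1
  apply Fin.ext
  exact Nat.ModEq.eq_of_lt_of_lt h2 i.isLt j.isLt

/-- A closed strip of triangles around an annulus between a `p`-gon and a `q`-gon: at each step
exactly one of the two indices (modulo `p` and `q`) moves to its successor, after `p + q` steps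
both have gone around once, and no edge is used twice. -/
def Annular (p q : ℕ) (α β : ℕ → ℕ) : Prop :=
  1 ≤ p ∧ 1 ≤ q ∧
  (∀ t, (α (t + 1) = α t + 1 ∧ β (t + 1) = β t) ∨ (α (t + 1) = α t ∧ β (t + 1) = β t + 1)) ∧
  (∀ t, α (t + (p + q)) = α t + p) ∧
  ∀ s t, s < t → t < s + (p + q) → ¬ (α s ≡ α t [MOD p] ∧ β s ≡ β t [MOD q])

section

variable {p q : ℕ} {α β : ℕ → ℕ}

theorem ann_sum (h : Annular p q α β) (t n : ℕ) : α (t + n) + β (t + n) = α t + β t + n := by
  induction n with
  | zero => rfl
  | succ n ih =>
    have := h.2.2.1 (t + n)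
    rw [← Nat.add_assoc]
    omega

theorem ann_beta (h : Annular p q α β) (t : ℕ) : β (t + (p + q)) = β t + q := by
  have h1 := ann_sum h t (p + q)
  have h2 := h.2.2.2.1 t
  omega

theorem ann_mono (h : Annular p q α β) (t n : ℕ) : α t ≤ α (t + n) ∧ β t ≤ β (t + n) := by
  induction n with
  | zero => exact ⟨le_rfl, le_rfl⟩
  | succ n ih =>
    have := h.2.2.1 (t + n)
    rw [← Nat.add_assoc]
    omega

/-- a step of the second index followed by a step of the first -/
theorem ann_corner (h : Annular p q α β) : ∃ t, β (t + 1) = β t + 1 ∧ α (t + 1) = α t ∧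
    α (t + 2) = α t + 1 ∧ β (t + 2) = β t + 1 := by
  obtain ⟨hp, hq, hstep, hper, -⟩ := id h
  -- a step of the second index
  have h1 : ∃ t, β (t + 1) = β t + 1 := by
    by_contra hc
    push Not at hc
    have : ∀ n, β (0 + n) = β 0 := by
      intro n
      induction n with
      | zero => rfl
      | succ n ih =>
        have := hc (0 + n)
        have := hstep (0 + n)
        rw [← Nat.add_assoc]
        omega
    have h2 := this (p + q)
    have h3 := ann_beta h 0
    omega
  obtain ⟨t, ht⟩ := h1
  -- next step of the first index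
  have h2 : ∃ n, α (t + 1 + n + 1) = α (t + 1 + n) + 1 := by
    by_contra hc
    push Not at hc
    have : ∀ n, α (t + 1 + n) = α (t + 1) := by
      intro n
      induction n with
      | zero => rfl
      | succ n ih =>
        have := hc n
        have := hstep (t + 1 + n)
        rw [← Nat.add_assoc]
        omega
    have h2 := this (p + q)
    have h3 := hper (t + 1)
    omega
  classical
  have h3 := Nat.find_spec h2
  set n := Nat.find h2 with hn
  have h4 : ∀ m, m < n → ¬ α (t + 1 + m + 1) = α (t + 1 + m) + 1 := fun m hm =>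
    Nat.find_min h2 hm
  rcases Nat.eq_zero_or_pos n with h5 | h5
  · rw [h5] at h3
    refine ⟨t, ht, ?_, ?_, ?_⟩
    · have := hstep t; omega
    · have h6 := hstep t
      have e : t + 2 = t + 1 + 0 + 1 := by omega
      rw [e, h3]
      simp only [Nat.add_zero]
      omega
    · have h6 := hstep (t + 1)
      simp only [Nat.add_zero] at h3
      have e : t + 2 = t + 1 + 1 := by omega
      rw [e]
      omega
  · have h6 := h4 (n - 1) (by omega)
    have e : t + 1 + (n - 1) + 1 = t + 1 + n := by omega
    rw [e] at h6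
    refine ⟨t + 1 + (n - 1), ?_, ?_, ?_, ?_⟩
    · have h7 := hstep (t + 1 + (n - 1))
      rw [e] at h7 ⊢
      omega
    · have h7 := hstep (t + 1 + (n - 1))
      rw [e] at h7 ⊢
      omega
    · have e2 : t + 1 + (n - 1) + 2 = t + 1 + n + 1 := by omega
      have h7 := hstep (t + 1 + (n - 1))
      rw [e] at h7
      rw [e2, h3]
      omega
    · have e2 : t + 1 + (n - 1) + 2 = t + 1 + n + 1 := by omega
      have h7 := hstep (t + 1 + (n - 1))
      rw [e] at h7
      have h8 := hstep (t + 1 + n)
      rw [e2]
      omega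

/-- the strip cut open -/
theorem ann_strip (h : Annular p q α β) (t : ℕ) (h1 : β (t + 1) = β t + 1)
    (h2 : α (t + 1) = α t) (h3 : α (t + 2) = α t + 1) (h4 : β (t + 2) = β t + 1) :
    IsStrip p q (fun n => α (t + 2 + n) - α (t + 2)) (fun n => β (t + 2 + n) - β (t + 2)) := by
  obtain ⟨hp, hq, hstep, hper, hdis⟩ := id h
  have hmono := ann_mono h (t + 2)
  have e1 : t + 2 + (p + q - 2) = t + (p + q) := by omega
  refine ⟨by simp, by simp, ?_, ?_, ?_, ?_⟩
  · intro n _
    have g1 := hmono n
    have g2 := hmono (n + 1)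
    have g3 := hstep (t + 2 + n)
    simp only
    rw [← Nat.add_assoc] at g2 ⊢
    omega
  · simp only
    rw [e1, hper, h3]; omega
  · simp only
    rw [e1, ann_beta h, h4]; omega
  · rintro n hn ⟨g1, g2⟩
    simp only at g1 g2
    have g3 := hmono n
    -- compare with the time `t + 1 + (p + q)`
    refine hdis (t + 2 + n) (t + 1 + (p + q)) (by omega) (by omega) ⟨?_, ?_⟩
    · have : α (t + 2 + n) = α (t + 1 + (p + q)) := by
        rw [hper, h2]; omega
      rw [this]
    · have : β (t + 1 + (p + q)) = β (t + 2 + n) + q := by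
        rw [ann_beta h, h1]; omega
      rw [this]
      exact (Nat.add_modEq_right (a := β (t + 2 + n)) (n := q)).symm

end

/-- the cross pairs of an annular strip -/
def OnStrip (p q : ℕ) (α β : ℕ → ℕ) (i : Fin p) (j : Fin q) : Prop :=
  ∃ t, α t % p = i.val ∧ β t % q = j.val

/-- adjacency of the triangulation -/
def crel {p q : ℕ} (P : SimpleGraph (Fin p)) (Q : SimpleGraph (Fin q)) (α β : ℕ → ℕ) :
    Fin p ⊕ Fin q → Fin p ⊕ Fin q → Prop
  | Sum.inl i, Sum.inl i' => P.Adj i i'
  | Sum.inr j, Sum.inr j' => Q.Adj j j'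
  | Sum.inl i, Sum.inr j => OnStrip p q α β i j
  | Sum.inr j, Sum.inl i => OnStrip p q α β i j

theorem rot_emb {p q : ℕ} (P : SimpleGraph (Fin p)) (Q : SimpleGraph (Fin q)) (α β : ℕ → ℕ)
    (hP : Tri P) (hQ : Tri Q) (h : Annular p q α β) :
    ∃ (T : Ann) (f : Fin p ⊕ Fin q → Fin T.p ⊕ Fin T.q), Function.Injective f ∧
      ∀ u v, crel P Q α β u v ↔ T.graph.Adj (f u) (f v) := by
  obtain ⟨t, h1, h2, h3, h4⟩ := ann_corner h
  obtain ⟨hp, hq, hstep, hper, hdis⟩ := id h
  have hmono := ann_mono h (t + 2)
  set a := α (t + 2) with ha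
  set b := β (t + 2) with hb
  -- inverse rotations
  have hsurjP : Function.Bijective (rot a : Fin p → Fin p) :=
    (Finite.injective_iff_bijective).1 (rot_inj a)
  have hsurjQ : Function.Bijective (rot b : Fin q → Fin q) :=
    (Finite.injective_iff_bijective).1 (rot_inj b)
  let eP := Equiv.ofBijective _ hsurjP
  let eQ := Equiv.ofBijective _ hsurjQ
  refine ⟨⟨p, q, P.comap (rot a), Q.comap (rot b), _, _, tri_rot a hP, tri_rot b hQ,
    ann_strip h t h1 h2 h3 h4⟩, Sum.map eP.symm eQ.symm,
    Function.Injective.sumMap eP.symm.injective eQ.symm.injective, ?_⟩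
  have keyP : ∀ i, rot a (eP.symm i) = i := fun i => eP.apply_symm_apply i
  have keyQ : ∀ i, rot b (eQ.symm i) = i := fun i => eQ.apply_symm_apply i
  have hcross : ∀ i j, OnStrip p q α β i j ↔
      (OnPath p q (fun n => α (t + 2 + n) - a) (fun n => β (t + 2 + n) - b)
        (eP.symm i).val (eQ.symm j).val ∨
        ((eP.symm i).val + 1 = p ∧ (eQ.symm j).val = 0)) := by
    intro i j
    have hi : ((eP.symm i).val + a) % p = i.val := congrArg Fin.val (keyP i)
    have hj : ((eQ.symm j).val + b) % q = j.val := congrArg Fin.val (keyQ j)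
    have ii := (eP.symm i).isLt
    have jj := (eQ.symm j).isLt
    set i' := (eP.symm i).val with hi'
    set j' := (eQ.symm j).val with hj'
    constructor
    · rintro ⟨r, g1, g2⟩
      -- move `r` into the window
      have hwin : ∀ r, ∃ n, n < p + q ∧ α (t + 2 + n) ≡ α r [MOD p] ∧
          β (t + 2 + n) ≡ β r [MOD q] := by
        have hshift : ∀ k r, α (r + k * (p + q)) ≡ α r [MOD p] ∧
            β (r + k * (p + q)) ≡ β r [MOD q] := by
          intro k r
          induction k with
          | zero => simp only [Nat.zero_mul, Nat.add_zero]; exact ⟨rfl, rfl⟩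
          | succ k ih =>
            have e : r + (k + 1) * (p + q) = (r + k * (p + q)) + (p + q) := by ring
            rw [e, hper, ann_beta h]
            exact ⟨(Nat.add_modEq_right (n := p)).trans ih.1,
              (Nat.add_modEq_right (n := q)).trans ih.2⟩
        intro r
        have hN : 0 < p + q := by omega
        -- r + K N = (t+2) + s, s = n + k N
        have hK : t + 2 ≤ r + (t + 2) * (p + q) := by nlinarith
        obtain ⟨s, hs⟩ := Nat.exists_eq_add_of_le hK
        refine ⟨s % (p + q), Nat.mod_lt _ hN, ?_, ?_⟩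
        · have g1 := (hshift (s / (p + q)) (t + 2 + s % (p + q))).1
          have e : t + 2 + s % (p + q) + s / (p + q) * (p + q) = t + 2 + s := by
            have := Nat.mod_add_div s (p + q)
            rw [Nat.mul_comm] at this
            omega
          rw [e, ← hs] at g1
          exact g1.symm.trans (hshift (t + 2) r).1
        · have g1 := (hshift (s / (p + q)) (t + 2 + s % (p + q))).2
          have e : t + 2 + s % (p + q) + s / (p + q) * (p + q) = t + 2 + s := by
            have := Nat.mod_add_div s (p + q)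
            rw [Nat.mul_comm] at this
            omega
          rw [e, ← hs] at g1
          exact g1.symm.trans (hshift (t + 2) r).2
      obtain ⟨n, hn, g3, g4⟩ := hwin r
      have gm := hmono n
      have g5 : α (t + 2 + n) - a + a ≡ i' + a [MOD p] := by
        rw [Nat.sub_add_cancel gm.1]
        refine g3.trans ?_
        show α r % p = (i' + a) % p
        rw [g1, hi]
      have g6 : β (t + 2 + n) - b + b ≡ j' + b [MOD q] := by
        rw [Nat.sub_add_cancel gm.2]
        refine g4.trans ?_
        show β r % q = (j' + b) % q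
        rw [g2, hj]
      have g7 := Nat.ModEq.add_right_cancel' a g5
      have g8 := Nat.ModEq.add_right_cancel' b g6
      rcases Nat.lt_or_ge (n + 1) (p + q) with hn' | hn'
      · -- on the path
        left
        obtain ⟨m, hm⟩ := Nat.exists_eq_add_of_le (show n ≤ p + q - 2 by omega)
        have e1 := ann_mono h (t + 2 + n) m
        have e2 : t + 2 + n + m = t + (p + q) := by omega
        rw [e2, hper, ann_beta h] at e1
        refine ⟨n, by omega, ?_, ?_⟩
        · show α (t + 2 + n) - a = i'
          have e3 : α (t + 2 + n) - a < p := by omega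
          exact Nat.ModEq.eq_of_lt_of_lt g7 e3 ii
        · show β (t + 2 + n) - b = j'
          have e3 : β (t + 2 + n) - b < q := by omega
          exact Nat.ModEq.eq_of_lt_of_lt g8 e3 jj
      · right
        have e1 : t + 2 + n = t + 1 + (p + q) := by omega
        rw [e1, hper, h2] at g7
        rw [e1, ann_beta h, h1] at g8
        have e3 : α t + p - a = p - 1 := by omega
        have e4 : β t + 1 + q - b = q := by omega
        rw [e3] at g7
        rw [e4] at g8
        refine ⟨?_, ?_⟩
        · have := Nat.ModEq.eq_of_lt_of_lt g7 (by omega) ii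
          omega
        · have g9 : 0 ≡ j' [MOD q] := by
            refine Nat.ModEq.trans ?_ g8
            show 0 % q = q % q
            rw [Nat.mod_self, Nat.zero_mod]
          exact (Nat.ModEq.eq_of_lt_of_lt g9 (by omega) jj).symm
    · rintro (⟨n, hn, g1, g2⟩ | ⟨g1, g2⟩)
      · simp only at g1 g2
        have gm := hmono n
        refine ⟨t + 2 + n, ?_, ?_⟩
        · rw [← hi, ← g1, Nat.sub_add_cancel gm.1]
        · rw [← hj, ← g2, Nat.sub_add_cancel gm.2]
      · refine ⟨t + 1 + (p + q), ?_, ?_⟩
        · rw [hper, h2, ← hi]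
          congr 1
          omega
        · rw [ann_beta h, h1, ← hj, g2, Nat.zero_add, ← h4, Nat.add_mod_right]
  rintro (i | j) (i' | j')
  · show P.Adj i i' ↔ P.Adj (rot a (eP.symm i)) (rot a (eP.symm i'))
    rw [keyP, keyP]
  · exact hcross i j'
  · exact hcross i' j
  · show Q.Adj j j' ↔ Q.Adj (rot b (eQ.symm j)) (rot b (eQ.symm j'))
    rw [keyQ, keyQ]

end Pool.Agent.Helper1.TD
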