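import Pool.Agent.Helper1.TD.Poly
import Pool.Agent.Helper1.Lev.Unit

set_option autoImplicit false

/-!
Annular strips (cut open) and their positions.
-/

namespace Pool.Agent.Helper1.TD

open Pool.Agent.Helper1.Lev

/-- A lattice path `(α t, β t)`, `t = 0, …, p + q - 2`, from `(0, 0)` to `(p - 1, q - 1)` which
avoids `(p - 1, 0)`. -/
def IsStrip (p q : ℕ) (α β : ℕ → ℕ) : Prop :=
  α 0 = 0 ∧ β 0 = 0 ∧
  (∀ t, t + 2 < p + q →
    (α (t + 1) = α t + 1 ∧ β (t + 1) = β t) ∨ (α (t + 1) = α t ∧ β (t + 1) = β t + 1)) ∧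
  α (p + q - 2) + 1 = p ∧ β (p + q - 2) + 1 = q ∧
  ∀ t, t + 2 ≤ p + q → ¬ (α t + 1 = p ∧ β t = 0)

/-- the pairs on the path -/
def OnPath (p q : ℕ) (α β : ℕ → ℕ) (i j : ℕ) : Prop := ∃ t, t + 2 ≤ p + q ∧ α t = i ∧ β t = j

section

variable {p q : ℕ} {α β : ℕ → ℕ}

theorem strip_mono (h : IsStrip p q α β) (t : ℕ) : ∀ t', t ≤ t' → t' + 2 ≤ p + q →
    α t ≤ α t' ∧ β t ≤ β t' := by
  intro t' h1
  induction t', h1 using Nat.le_induction with
  | base => intro _; exact ⟨le_rfl, le_rfl⟩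
  | succ n hn ih =>
    intro h2
    obtain ⟨h3, h4⟩ := ih (by omega)
    rcases h.2.2.1 n (by omega) with h5 | h5 <;> constructor <;> omega

theorem ivtA (h : IsStrip p q α β) (t : ℕ) (c : ℕ) (h0 : α t ≤ c) : ∀ t', t ≤ t' →
    t' + 2 ≤ p + q → c ≤ α t' → ∃ r, t ≤ r ∧ r ≤ t' ∧ α r = c := by
  intro t' h1
  induction t', h1 using Nat.le_induction with
  | base => intro _ h2; exact ⟨t, le_rfl, le_rfl, by omega⟩
  | succ n hn ih =>
    intro h2 h3
    by_cases h4 : c ≤ α n
    · obtain ⟨r, h5, h6, h7⟩ := ih (by omega) h4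
      exact ⟨r, h5, by omega, h7⟩
    · refine ⟨n + 1, by omega, le_rfl, ?_⟩
      rcases h.2.2.1 n (by omega) with h5 | h5 <;> omega

theorem ivtB (h : IsStrip p q α β) (t : ℕ) (c : ℕ) (h0 : β t ≤ c) : ∀ t', t ≤ t' →
    t' + 2 ≤ p + q → c ≤ β t' → ∃ r, t ≤ r ∧ r ≤ t' ∧ β r = c := by
  intro t' h1
  induction t', h1 using Nat.le_induction with
  | base => intro _ h2; exact ⟨t, le_rfl, le_rfl, by omega⟩
  | succ n hn ih =>
    intro h2 h3
    by_cases h4 : c ≤ β n
    · obtain ⟨r, h5, h6, h7⟩ := ih (by omega) h4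
      exact ⟨r, h5, by omega, h7⟩
    · refine ⟨n + 1, by omega, le_rfl, ?_⟩
      rcases h.2.2.1 n (by omega) with h5 | h5 <;> omega

theorem strip_sol (h : IsStrip p q α β) :
    Sol (Finset.range p) (Finset.range q) (OnPath p q α β) := by
  refine unit_sol _ _ _ _ rfl ?_ ?_ ?_
  · rintro i - i' - j - j' - hi hj ⟨t, h1, h2, h3⟩ ⟨t', h1', h2', h3'⟩
    exfalso
    rcases le_total t t' with g | g
    · have := (strip_mono h t t' g h1').2
      omega
    · have := (strip_mono h t' t g h1).1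
      omega
  · rintro j - i - i' - i'' - hi hi' ⟨t, h1, h2, h3⟩ ⟨t', h1', h2', h3'⟩
    have g : t ≤ t' := by
      by_contra g
      have := (strip_mono h t' t (by omega) h1).1
      omega
    obtain ⟨r, g1, g2, g3⟩ := ivtA h t i' (by omega) t' g h1' (by omega)
    refine ⟨r, by omega, g3, ?_⟩
    have := (strip_mono h t r g1 (by omega)).2
    have := (strip_mono h r t' g2 h1').2
    omega
  · rintro i - j - j' - j'' - hj hj' ⟨t, h1, h2, h3⟩ ⟨t', h1', h2', h3'⟩
    have g : t ≤ t' := by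
      by_contra g
      have := (strip_mono h t' t (by omega) h1).2
      omega
    obtain ⟨r, g1, g2, g3⟩ := ivtB h t j' (by omega) t' g h1' (by omega)
    refine ⟨r, by omega, ?_, g3⟩
    have := (strip_mono h t r g1 (by omega)).1
    have := (strip_mono h r t' g2 h1').1
    omega

/-- positions for one strip -/
theorem strip_pos (h : IsStrip p q α β) : ∃ (y : Fin p → ℝ) (z : Fin q → ℝ) (S L : ℝ),
    StrictMono y ∧ StrictMono z ∧ 1 ≤ S ∧ S < L ∧
    (∀ i j, i.val + 1 = p → j.val = 0 → y i - z j = L) ∧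
    (∀ i j, ¬ (i.val + 1 = p ∧ j.val = 0) → y i - z j ≤ S) ∧
    (∀ i j, OnPath p q α β i.val j.val → |y i - z j| < 1) ∧
    (∀ i j, ¬ OnPath p q α β i.val j.val → 1 < |y i - z j|) := by
  obtain ⟨a, b, ha, hb, he, hn⟩ := strip_sol h
  obtain ⟨h1, h2, h3, h4, h5, h6⟩ := id h
  have hp : 1 ≤ p := by omega
  have hq : 1 ≤ q := by omega
  have ha' : StrictMono (fun i : Fin p => a i.val) := by
    intro i i' hii
    exact ha _ (Finset.mem_range.2 i.isLt) _ (Finset.mem_range.2 i'.isLt) hii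
  have hb' : StrictMono (fun i : Fin q => b i.val) := by
    intro i i' hii
    exact hb _ (Finset.mem_range.2 i.isLt) _ (Finset.mem_range.2 i'.isLt) hii
  have hL : 1 < a (p - 1) - b 0 := by
    have g1 : ¬ OnPath p q α β (p - 1) 0 := by
      rintro ⟨t, g1, g2, g3⟩
      exact h6 t g1 ⟨by omega, g3⟩
    have g2 := hn (p - 1) (Finset.mem_range.2 (by omega)) 0 (Finset.mem_range.2 (by omega)) g1
    have g3 : OnPath p q α β (p - 1) (q - 1) := ⟨p + q - 2, by omega, by omega, by omega⟩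
    have g4 := he (p - 1) (Finset.mem_range.2 (by omega)) (q - 1)
      (Finset.mem_range.2 (by omega)) g3
    have g5 : b 0 ≤ b (q - 1) := by
      rcases Nat.eq_zero_or_pos (q - 1) with g | g
      · rw [g]
      · exact (hb 0 (Finset.mem_range.2 (by omega)) (q - 1) (Finset.mem_range.2 (by omega))
          g).le
    have g6 := (abs_lt.1 g4).1
    rcases lt_abs.1 g2 with g | g
    · exact g
    · linarith
  have hlt : ∀ (i : Fin p) (j : Fin q), ¬ (i.val + 1 = p ∧ j.val = 0) →
      a i.val - b j.val < a (p - 1) - b 0 := by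
    intro i j hij
    have hi := i.isLt
    have hj := j.isLt
    have g1 : a i.val ≤ a (p - 1) := by
      rcases Nat.lt_or_ge i.val (p - 1) with g | g
      · exact (ha _ (Finset.mem_range.2 hi) (p - 1) (Finset.mem_range.2 (by omega)) g).le
      · have : i.val = p - 1 := by omega
        rw [this]
    have g2 : b 0 ≤ b j.val := by
      rcases Nat.eq_zero_or_pos j.val with g | g
      · rw [g]
      · exact (hb 0 (Finset.mem_range.2 (by omega)) _ (Finset.mem_range.2 hj) g).le
    by_cases g : i.val + 1 = p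
    · have g3 : 0 < j.val := by
        rcases Nat.eq_zero_or_pos j.val with g' | g'
        · exact absurd ⟨g, g'⟩ hij
        · exact g'
      have := hb 0 (Finset.mem_range.2 (by omega)) _ (Finset.mem_range.2 hj) g3
      linarith
    · have := ha _ (Finset.mem_range.2 hi) (p - 1) (Finset.mem_range.2 (by omega)) (by omega)
      linarith
  classical
  obtain ⟨S, hS1, hS2⟩ := exists_between_finset
    (insert 1 ((Finset.univ.filter (fun ij : Fin p × Fin q =>
      ¬ (ij.1.val + 1 = p ∧ ij.2.val = 0))).image (fun ij => a ij.1.val - b ij.2.val)))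
    (a (p - 1) - b 0) (by
      intro x hx
      rcases Finset.mem_insert.1 hx with g | g
      · rw [g]; exact hL
      · obtain ⟨⟨i, j⟩, g1, rfl⟩ := Finset.mem_image.1 g
        exact hlt i j (Finset.mem_filter.1 g1).2)
  refine ⟨fun i => a i.val, fun j => b j.val, S, a (p - 1) - b 0, ha', hb', ?_, hS1, ?_, ?_,
    ?_, ?_⟩
  · exact (hS2 1 (Finset.mem_insert_self _ _)).le
  · intro i j g1 g2
    have : i.val = p - 1 := by omega
    simp only [this, g2]
  · intro i j g
    exact (hS2 _ (Finset.mem_insert_of_mem (Finset.mem_image.2 ⟨(i, j), by simpa using g,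
      rfl⟩))).le
  · intro i j g
    exact he _ (Finset.mem_range.2 i.isLt) _ (Finset.mem_range.2 j.isLt) g
  · intro i j g
    exact hn _ (Finset.mem_range.2 i.isLt) _ (Finset.mem_range.2 j.isLt) g

end

end Pool.Agent.Helper1.TD
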