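import Pool.Agent.Helper1.TD.Geom

set_option autoImplicit false

/-!
The general two-tip theorem: two groups; every cross non-edge has a level at which it is to the
left of all cross edges, or to the right of all cross edges, or between the lower ones and the
upper ones.
-/

namespace Pool.Agent.Helper1.TD

open Pool.Agent.Helper1.Lev Filter Topology

theorem exists_M {V : Type} [Fintype V] (x : V → ℝ) (ξ : V → V → ℝ) :
    ∃ M : ℝ, 1 < M ∧ ∀ u v, x u < ξ u v → ξ u v < x v →
      x v - x u < M * (x v - ξ u v) ∧ x v - x u < M * (ξ u v - x u) := by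
  have h : ∀ᶠ M : ℝ in atTop, 1 < M ∧ ∀ u v, x u < ξ u v → ξ u v < x v →
      x v - x u < M * (x v - ξ u v) ∧ x v - x u < M * (ξ u v - x u) := by
    refine (eventually_gt_atTop 1).and ?_
    rw [eventually_all]; intro u
    rw [eventually_all]; intro v
    by_cases h1 : x u < ξ u v
    · by_cases h2 : ξ u v < x v
      · have e1 := (tendsto_id.atTop_mul_const (sub_pos.2 h2)).eventually_gt_atTop (x v - x u)
        have e2 := (tendsto_id.atTop_mul_const (sub_pos.2 h1)).eventually_gt_atTop (x v - x u)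
        filter_upwards [e1, e2] with M h3 h4
        intro _ _
        exact ⟨h3, h4⟩
      · exact Eventually.of_forall fun M _ h => absurd h h2
    · exact Eventually.of_forall fun M h => absurd h h1
  exact h.exists

/-- (twice) the abscissa at height `l` of the undistorted segment -/
def XX {V : Type} (x : V → ℝ) (l : ℝ) (u v : V) : ℝ := (1 - l) * x u + (1 + l) * x v

/-- the abscissa at height `l` of the segment -/
noncomputable def FF {V : Type} (x D : V → ℝ) (δ l : ℝ) (u v : V) : ℝ :=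
  (x u * (1 + δ * D v - l) + x v * (1 + δ * D u + l)) / (2 + δ * (D u + D v))

theorem FF_cont {V : Type} (x D : V → ℝ) (l : ℝ) (u v : V) :
    ContinuousAt (fun δ : ℝ => FF x D δ l u v) 0 := by
  unfold FF
  apply ContinuousAt.div
  · fun_prop
  · fun_prop
  · norm_num

theorem FF_zero {V : Type} (x D : V → ℝ) (l : ℝ) (u v : V) :
    FF x D 0 l u v = XX x l u v / 2 := by
  unfold FF XX
  congr 1 <;> ring

theorem exists_delta {V : Type} [Fintype V] (x D : V → ℝ) (ξ lam : V → V → ℝ) :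
    ∃ δ : ℝ, 0 < δ ∧
      (∀ c e u v, x c ≠ ξ u v → δ * D c * |x e - x c| < 2 * |ξ u v - x c|) ∧
      ∀ u v c e,
        (XX x (lam u v) u v < XX x (lam u v) c e →
          FF x D δ (lam u v) u v < FF x D δ (lam u v) c e) ∧
        (XX x (lam u v) c e < XX x (lam u v) u v →
          FF x D δ (lam u v) c e < FF x D δ (lam u v) u v) := by
  have h1 : ∀ᶠ δ : ℝ in 𝓝 0, ∀ c e u v, x c ≠ ξ u v →
      δ * D c * |x e - x c| < 2 * |ξ u v - x c| := by
    rw [eventually_all]; intro c
    rw [eventually_all]; intro e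
    rw [eventually_all]; intro u
    rw [eventually_all]; intro v
    by_cases h : x c = ξ u v
    · exact Eventually.of_forall fun δ h' => absurd h h'
    · have hpos : 0 < |ξ u v - x c| := abs_pos.2 (sub_ne_zero.2 (Ne.symm h))
      have := ContinuousAt.eventually_lt (f := fun δ : ℝ => δ * D c * |x e - x c|)
        (g := fun _ : ℝ => 2 * |ξ u v - x c|) (x₀ := 0) (by fun_prop) (by fun_prop)
        (by simp only [zero_mul]; linarith)
      filter_upwards [this] with δ h3 _
      exact h3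
  have h2 : ∀ᶠ δ : ℝ in 𝓝 0, ∀ u v c e,
        (XX x (lam u v) u v < XX x (lam u v) c e →
          FF x D δ (lam u v) u v < FF x D δ (lam u v) c e) ∧
        (XX x (lam u v) c e < XX x (lam u v) u v →
          FF x D δ (lam u v) c e < FF x D δ (lam u v) u v) := by
    rw [eventually_all]; intro u
    rw [eventually_all]; intro v
    rw [eventually_all]; intro c
    rw [eventually_all]; intro e
    refine Eventually.and ?_ ?_
    · by_cases h : XX x (lam u v) u v < XX x (lam u v) c e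
      · have := ContinuousAt.eventually_lt (FF_cont x D (lam u v) u v)
          (FF_cont x D (lam u v) c e) (by rw [FF_zero, FF_zero]; linarith)
        filter_upwards [this] with δ h3 _
        exact h3
      · exact Eventually.of_forall fun δ h' => absurd h' h
    · by_cases h : XX x (lam u v) c e < XX x (lam u v) u v
      · have := ContinuousAt.eventually_lt (FF_cont x D (lam u v) c e)
          (FF_cont x D (lam u v) u v) (by rw [FF_zero, FF_zero]; linarith)
        filter_upwards [this] with δ h3 _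
        exact h3
      · exact Eventually.of_forall fun δ h' => absurd h' h
  have h3 : ∀ᶠ δ : ℝ in 𝓝[>] 0, 0 < δ := self_mem_nhdsWithin
  obtain ⟨δ, g1, g2, g3⟩ := (h3.and ((h1.filter_mono nhdsWithin_le_nhds).and
    (h2.filter_mono nhdsWithin_le_nhds))).exists
  exact ⟨δ, g1, g2, g3⟩

/-- the crossing with the level `l` -/
theorem cross_level {V : Type} (x s D : V → ℝ) (δ : ℝ) (hδ : 0 < δ) (hD : ∀ v, 0 ≤ D v)
    (u v : V) (hu : s u = -1) (hv : s v = 1) (l : ℝ) (hl1 : -1 < l) (hl2 : l < 1) :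
    (∀ z ∈ segment ℝ (pt x s D δ u) (pt x s D δ v), z.2 = l → z.1 = FF x D δ l u v) ∧
    ∃ z ∈ segment ℝ (pt x s D δ u) (pt x s D δ v), z.2 = l := by
  have h1 := hD u
  have h2 := hD v
  have h3 : 0 ≤ δ * D u := by positivity
  have h4 : 0 ≤ δ * D v := by positivity
  have hp : 0 < 2 + δ * (D u + D v) := by nlinarith
  have hfst : ∀ a b : ℝ, (a • pt x s D δ u + b • pt x s D δ v).1 = a * x u + b * x v := by
    intro a b; simp [pt]
  have hsnd : ∀ a b : ℝ, (a • pt x s D δ u + b • pt x s D δ v).2 =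
      b * (1 + δ * D v) - a * (1 + δ * D u) := by
    intro a b; simp [pt, hu, hv]; ring
  constructor
  · intro z hz hz2
    obtain ⟨a, b, ha, hb, hab, rfl⟩ := hz
    rw [hsnd] at hz2
    rw [hfst]
    have e2 : b * (2 + δ * (D u + D v)) = 1 + δ * D u + l := by
      have : a = 1 - b := by linarith
      subst this
      linarith
    have e3 : a * (2 + δ * (D u + D v)) = 1 + δ * D v - l := by
      have : b = 1 - a := by linarith
      subst this
      linarith
    unfold FF
    rw [eq_div_iff hp.ne', ← e2, ← e3]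
    ring
  · refine ⟨((1 + δ * D v - l) / (2 + δ * (D u + D v))) • pt x s D δ u +
      ((1 + δ * D u + l) / (2 + δ * (D u + D v))) • pt x s D δ v, ?_, ?_⟩
    · refine ⟨(1 + δ * D v - l) / (2 + δ * (D u + D v)), (1 + δ * D u + l) /
        (2 + δ * (D u + D v)), ?_, ?_, ?_, rfl⟩
      · exact div_nonneg (by linarith) hp.le
      · exact div_nonneg (by linarith) hp.le
      · rw [← add_div, div_eq_one_iff_eq hp.ne']; ring
    · rw [hsnd]
      field_simp
      ring

theorem twoTip {V : Type} [Fintype V] (G : SimpleGraph V) (x s : V → ℝ) (dep : V → ℕ)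
    (U : V → V → Prop)
    (hs : ∀ v, s v = 1 ∨ s v = -1)
    (hinj : ∀ u v, s u = s v → x u = x v → u = v)
    (hexp : ∀ u v, s u = s v → x u < x v → ¬ G.Adj u v → ∃ ξ, x u < ξ ∧ ξ < x v ∧
      ∃ w, (w = u ∨ w = v) ∧ (∀ k, s k = s u → x k = ξ → dep k < dep w) ∧
        ∀ c e, G.Adj c e → s c = s u → s e = s u → x c < ξ → ξ < x e →
          dep c < dep w ∧ dep e < dep w)
    (hcross : ∀ u v, s u = -1 → s v = 1 → ¬ G.Adj u v → ∃ l : ℝ, -1 < l ∧ l < 1 ∧
      ((∀ c e, s c = -1 → s e = 1 → G.Adj c e → XX x l u v < XX x l c e) ∨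
        (∀ c e, s c = -1 → s e = 1 → G.Adj c e → XX x l c e < XX x l u v) ∨
        (∀ c e, s c = -1 → s e = 1 → G.Adj c e →
          (U c e → XX x l u v < XX x l c e) ∧ (¬ U c e → XX x l c e < XX x l u v)))) :
    ∃ (q : V → ℝ × ℝ) (O₁ O₂ : Set (ℝ × ℝ)),
      Function.Injective q ∧ IsPreconnected O₁ ∧ IsPreconnected O₂ ∧
      (∀ v : V, q v ∉ O₁ ∪ O₂) ∧
      (∀ u v : V, u ≠ v → (G.Adj u v ↔ Disjoint (segment ℝ (q u) (q v)) (O₁ ∪ O₂))) := by
  have hxi : ∀ u v, ∃ ξ, s u = s v → x u < x v → ¬ G.Adj u v → x u < ξ ∧ ξ < x v ∧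
      ∃ w, (w = u ∨ w = v) ∧ (∀ k, s k = s u → x k = ξ → dep k < dep w) ∧
        ∀ c e, G.Adj c e → s c = s u → s e = s u → x c < ξ → ξ < x e →
          dep c < dep w ∧ dep e < dep w := by
    intro u v
    by_cases h : s u = s v ∧ x u < x v ∧ ¬ G.Adj u v
    · obtain ⟨ξ, hξ⟩ := hexp u v h.1 h.2.1 h.2.2
      exact ⟨ξ, fun _ _ _ => hξ⟩
    · exact ⟨0, fun h1 h2 h3 => absurd ⟨h1, h2, h3⟩ h⟩
  choose ξ hξ using hxi
  obtain ⟨M, hM1, hM⟩ := exists_M x ξ
  have hM0 : 0 < M := by linarith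
  set D : V → ℝ := fun v => M ^ dep v with hDdef
  have hD0 : ∀ v, 0 < D v := fun v => by rw [hDdef]; positivity
  have hD : ∀ v, 0 ≤ D v := fun v => (hD0 v).le
  have hlam : ∀ u v, ∃ l : ℝ, (-1 < l ∧ l < 1) ∧ (s u = -1 → s v = 1 → ¬ G.Adj u v →
      ((∀ c e, s c = -1 → s e = 1 → G.Adj c e → XX x l u v < XX x l c e) ∨
        (∀ c e, s c = -1 → s e = 1 → G.Adj c e → XX x l c e < XX x l u v) ∨
        (∀ c e, s c = -1 → s e = 1 → G.Adj c e →
          (U c e → XX x l u v < XX x l c e) ∧ (¬ U c e → XX x l c e < XX x l u v)))) := by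
    intro u v
    by_cases h : s u = -1 ∧ s v = 1 ∧ ¬ G.Adj u v
    · obtain ⟨l, h1, h2, h3⟩ := hcross u v h.1 h.2.1 h.2.2
      exact ⟨l, ⟨h1, h2⟩, fun _ _ _ => h3⟩
    · exact ⟨0, by norm_num, fun h1 h2 h3 => absurd ⟨h1, h2, h3⟩ h⟩
  choose lam hlam1 hlam2 using hlam
  obtain ⟨δ, hδ, hδ1, hδ2⟩ := exists_delta x D ξ lam
  set q := pt x s D δ with hq
  -- the hole
  set O₂ : Set (ℝ × ℝ) := {z | (-1 < z.2 ∧ z.2 < 1) ∧ ∀ c e, s c = -1 → s e = 1 →
    G.Adj c e → (U c e → z.1 < FF x D δ z.2 c e) ∧ (¬ U c e → FF x D δ z.2 c e < z.1)} with hO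
  have hFaff : ∀ c e (a b l l' : ℝ), a + b = 1 →
      FF x D δ (a * l + b * l') c e = a * FF x D δ l c e + b * FF x D δ l' c e := by
    intro c e a b l l' hab
    unfold FF
    rw [← mul_div_assoc, ← mul_div_assoc, ← add_div]
    congr 1
    have : b = 1 - a := by linarith
    subst this
    ring
  have hconv : Convex ℝ O₂ := by
    intro z hz w hw a b ha hb hab
    obtain ⟨⟨z1, z2⟩, z3⟩ := hz
    obtain ⟨⟨w1, w2⟩, w3⟩ := hw
    have hfst : (a • z + b • w).1 = a * z.1 + b * w.1 := by simp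
    have hsnd : (a • z + b • w).2 = a * z.2 + b * w.2 := by simp
    refine ⟨⟨?_, ?_⟩, ?_⟩
    · rw [hsnd]
      have := comb_lt ha hb hab (neg_lt_neg z1) (neg_lt_neg w1)
      linarith
    · rw [hsnd]
      exact comb_lt ha hb hab z2 w2
    · intro c e h1 h2 h3
      rw [hfst, hsnd, hFaff c e a b _ _ hab]
      constructor
      · intro h4
        have h5 := (z3 c e h1 h2 h3).1 h4
        have h6 := (w3 c e h1 h2 h3).1 h4
        have := comb_lt (B := 0) ha hb hab (sub_neg.2 h5) (sub_neg.2 h6)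
        linarith
      · intro h4
        have h5 := (z3 c e h1 h2 h3).2 h4
        have h6 := (w3 c e h1 h2 h3).2 h4
        have := comb_lt (B := 0) ha hb hab (sub_neg.2 h5) (sub_neg.2 h6)
        linarith
  -- heights of same-side segments
  have hside : ∀ c e, s c = s e → ∀ z ∈ segment ℝ (q c) (q e), ¬ (-1 < z.2 ∧ z.2 < 1) := by
    intro c e hce z hz
    obtain ⟨a, b, ha, hb, hab, rfl⟩ := hz
    simp only [hq, pt, Prod.snd_add, Prod.smul_snd, smul_eq_mul, ← hce]
    have h1 : 1 ≤ a * (1 + δ * D c) + b * (1 + δ * D e) := by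
      have h2 := hD c
      have h3 := hD e
      have h4 : 0 ≤ a * (δ * D c) := by positivity
      have h5 : 0 ≤ b * (δ * D e) := by positivity
      nlinarith
    have e : a * (s c * (1 + δ * D c)) + b * (s c * (1 + δ * D e)) =
        s c * (a * (1 + δ * D c) + b * (1 + δ * D e)) := by ring
    rw [e]
    rintro ⟨g1, g2⟩
    rcases hs c with h | h <;> rw [h] at g1 g2 <;> linarith
  have hvert : ∀ v, ¬ (-1 < (q v).2 ∧ (q v).2 < 1) := by
    intro v
    exact hside v v rfl _ (left_mem_segment ℝ _ _)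
  have hqinj : Function.Injective q := by
    intro u v huv
    have e1 : x u = x v := congrArg Prod.fst huv
    have e2 : s u * (1 + δ * D u) = s v * (1 + δ * D v) := congrArg Prod.snd huv
    have h1 := hD0 u
    have h2 := hD0 v
    have h3 : 0 < δ * D u := by positivity
    have h4 : 0 < δ * D v := by positivity
    refine hinj u v ?_ e1
    rcases hs u with h5 | h5 <;> rcases hs v with h6 | h6
    · rw [h5, h6]
    · rw [h5, h6] at e2; linarith
    · rw [h5, h6] at e2; linarith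
    · rw [h5, h6]
  -- weights
  have hweight : ∀ u v w, x u < ξ u v → ξ u v < x v → (w = u ∨ w = v) → ∀ E : ℝ,
      E * (x v - x u) = (x v - ξ u v) * D u + (ξ u v - x u) * D v → ∀ c, dep c < dep w →
      D c < E := by
    intro u v w h1 h2 hw E hE c hc
    have hpos : 0 < x v - x u := by linarith
    obtain ⟨m1, m2⟩ := hM u v h1 h2
    have hle : M * D c ≤ D w := by
      have : M * D c = M ^ (dep c + 1) := by rw [hDdef]; ring
      rw [this]
      exact pow_le_pow_right₀ hM1.le (by omega)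
    have hDc := hD0 c
    have hDu := hD0 u
    have hDv := hD0 v
    have h3 : 0 < (x v - ξ u v) * D u := mul_pos (by linarith) hDu
    have h4 : 0 < (ξ u v - x u) * D v := mul_pos (by linarith) hDv
    have : D c * (x v - x u) < E * (x v - x u) := by
      rw [hE]
      rcases hw with rfl | rfl
      · have h5 : (x v - x w) * D c < M * (x v - ξ w v) * D c :=
          mul_lt_mul_of_pos_right m1 hDc
        have h6 : (x v - ξ w v) * (M * D c) ≤ (x v - ξ w v) * D w :=
          mul_le_mul_of_nonneg_left hle (by linarith)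
        nlinarith
      · have h5 : (x w - x u) * D c < M * (ξ u w - x u) * D c :=
          mul_lt_mul_of_pos_right m2 hDc
        have h6 : (ξ u w - x u) * (M * D c) ≤ (ξ u w - x u) * D w :=
          mul_le_mul_of_nonneg_left hle (by linarith)
        nlinarith
    exact lt_of_mul_lt_mul_right this hpos.le
  -- same side non-edges
  have hsame : ∀ u v, s u = s v → x u < x v → ¬ G.Adj u v →
      ∃ m ∈ segment ℝ (q u) (q v), Low G q m ∨ Upp G q m := by
    intro u v huv hlt hn
    obtain ⟨h1, h2, w, hw, h3, h4⟩ := hξ u v huv hlt hn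
    have hpos : 0 < x v - x u := by linarith
    set E := ((x v - ξ u v) * D u + (ξ u v - x u) * D v) / (x v - x u) with hEdef
    have hE : E * (x v - x u) = (x v - ξ u v) * D u + (ξ u v - x u) * D v := by
      rw [hEdef, div_mul_cancel₀ _ hpos.ne']
    have hEk : ∀ k, s k = s u → x k = ξ u v → D k < E := fun k g1 g2 =>
      hweight u v w h1 h2 hw E hE k (h3 k g1 g2)
    have hEe : ∀ c e, G.Adj c e → s c = s u → s e = s u → x c < ξ u v → ξ u v < x e →
        D c < E ∧ D e < E := fun c e g1 g2 g3 g4 g5 =>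
      ⟨hweight u v w h1 h2 hw E hE c (h4 c e g1 g2 g3 g4 g5).1,
        hweight u v w h1 h2 hw E hE e (h4 c e g1 g2 g3 g4 g5).2⟩
    rcases hs u with h5 | h5
    · obtain ⟨m, hm, hm'⟩ := upp_side G x s D δ hδ hs hD hinj u v h5 (by rw [← huv, h5])
        (ξ u v) h1 h2 E hE (fun k g1 g2 => hEk k (by rw [g1, h5]) g2)
        (fun c e g1 g2 g3 g4 g5 => hEe c e g1 (by rw [g2, h5]) (by rw [g3, h5]) g4 g5)
        (fun c e _ _ g => hδ1 c e u v g)
      exact ⟨m, hm, Or.inr hm'⟩
    · obtain ⟨m, hm, hm'⟩ := low_side G x s D δ hδ hs hD hinj u v h5 (by rw [← huv, h5])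
        (ξ u v) h1 h2 E hE (fun k g1 g2 => hEk k (by rw [g1, h5]) g2)
        (fun c e g1 g2 g3 g4 g5 => hEe c e g1 (by rw [g2, h5]) (by rw [g3, h5]) g4 g5)
        (fun c e _ _ g => hδ1 c e u v g)
      exact ⟨m, hm, Or.inl hm'⟩
  -- edges at a level
  have hlev : ∀ c e, G.Adj c e → ∀ z ∈ segment ℝ (q c) (q e), (-1 < z.2 ∧ z.2 < 1) →
      ∃ c' e', s c' = -1 ∧ s e' = 1 ∧ G.Adj c' e' ∧ z.1 = FF x D δ z.2 c' e' := by
    intro c e hce z hz hz2
    rcases hs c with h1 | h1 <;> rcases hs e with h2 | h2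
    · exact absurd hz2 (hside c e (by rw [h1, h2]) z hz)
    · rw [segment_symm] at hz
      exact ⟨e, c, h2, h1, hce.symm,
        (cross_level x s D δ hδ hD e c h2 h1 z.2 hz2.1 hz2.2).1 z hz rfl⟩
    · exact ⟨c, e, h1, h2, hce,
        (cross_level x s D δ hδ hD c e h1 h2 z.2 hz2.1 hz2.2).1 z hz rfl⟩
    · exact absurd hz2 (hside c e (by rw [h1, h2]) z hz)
  -- cross non-edges
  have hcr : ∀ u v, s u = -1 → s v = 1 → ¬ G.Adj u v →
      ∃ m ∈ segment ℝ (q u) (q v), Lft G q m ∨ Rgt G q m ∨ m ∈ O₂ := by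
    intro u v h1 h2 hn
    obtain ⟨hl1, hl2⟩ := hlam1 u v
    obtain ⟨hz1, z, hz, hz0⟩ := cross_level x s D δ hδ hD u v h1 h2 (lam u v) hl1 hl2
    have h3 := hz1 z hz hz0
    refine ⟨z, hz, ?_⟩
    rcases hlam2 u v h1 h2 hn with h4 | h4 | h4
    · left
      refine ⟨?_, ?_⟩
      · intro c e hce y hy hy2
        obtain ⟨c', e', g1, g2, g3, g4⟩ := hlev c e hce y hy (by rw [hy2, hz0]; exact ⟨hl1, hl2⟩)
        rw [g4, h3, hy2, hz0]
        exact (hδ2 u v c' e').1 (h4 c' e' g1 g2 g3)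
      · intro c hc
        exact absurd (by rw [hc, hz0]; exact ⟨hl1, hl2⟩) (hvert c)
    · right; left
      refine ⟨?_, ?_⟩
      · intro c e hce y hy hy2
        obtain ⟨c', e', g1, g2, g3, g4⟩ := hlev c e hce y hy (by rw [hy2, hz0]; exact ⟨hl1, hl2⟩)
        rw [g4, h3, hy2, hz0]
        exact (hδ2 u v c' e').2 (h4 c' e' g1 g2 g3)
      · intro c hc
        exact absurd (by rw [hc, hz0]; exact ⟨hl1, hl2⟩) (hvert c)
    · right; right
      refine ⟨by rw [hz0]; exact ⟨hl1, hl2⟩, ?_⟩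
      intro c e g1 g2 g3
      rw [h3, hz0]
      exact ⟨fun g => (hδ2 u v c e).1 ((h4 c e g1 g2 g3).1 g),
        fun g => (hδ2 u v c e).2 ((h4 c e g1 g2 g3).2 g)⟩
  have hE2 : ∀ c d, G.Adj c d → ∀ z ∈ segment ℝ (q c) (q d), z ∉ O₂ := by
    intro c e hce z hz hzO
    obtain ⟨h1, h2⟩ := hzO
    obtain ⟨c', e', g1, g2, g3, g4⟩ := hlev c e hce z hz h1
    by_cases hU : U c' e'
    · have := (h2 c' e' g1 g2 g3).1 hU
      rw [← g4] at this
      exact lt_irrefl _ this
    · have := (h2 c' e' g1 g2 g3).2 hU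
      rw [← g4] at this
      exact lt_irrefl _ this
  have hV2 : ∀ v, q v ∉ O₂ := by
    intro v hv
    exact hvert v hv.1
  have hH2 : ∀ u v, u ≠ v → ¬ G.Adj u v → ∃ m ∈ segment ℝ (q u) (q v),
      Low G q m ∨ Upp G q m ∨ Lft G q m ∨ Rgt G q m ∨ m ∈ O₂ := by
    intro u v huv hn
    have key : ∀ u v, u ≠ v → ¬ G.Adj u v → (s u = -1 ∧ s v = 1) ∨ (s u = s v ∧ x u < x v) →
        ∃ m ∈ segment ℝ (q u) (q v),
          Low G q m ∨ Upp G q m ∨ Lft G q m ∨ Rgt G q m ∨ m ∈ O₂ := by
      rintro u v - hn (⟨h1, h2⟩ | ⟨h1, h2⟩)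
      · obtain ⟨m, hm, h⟩ := hcr u v h1 h2 hn
        exact ⟨m, hm, Or.inr (Or.inr h)⟩
      · obtain ⟨m, hm, h | h⟩ := hsame u v h1 h2 hn
        · exact ⟨m, hm, Or.inl h⟩
        · exact ⟨m, hm, Or.inr (Or.inl h)⟩
    have hn' : ¬ G.Adj v u := fun h => hn h.symm
    rcases hs u with h1 | h1 <;> rcases hs v with h2 | h2
    · rcases lt_trichotomy (x u) (x v) with h3 | h3 | h3
      · exact key u v huv hn (Or.inr ⟨by rw [h1, h2], h3⟩)
      · exact absurd (hinj u v (by rw [h1, h2]) h3) huv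
      · rw [segment_symm]
        exact key v u huv.symm hn' (Or.inr ⟨by rw [h1, h2], h3⟩)
    · rw [segment_symm]
      exact key v u huv.symm hn' (Or.inl ⟨h2, h1⟩)
    · exact key u v huv hn (Or.inl ⟨h1, h2⟩)
    · rcases lt_trichotomy (x u) (x v) with h3 | h3 | h3
      · exact key u v huv hn (Or.inr ⟨by rw [h1, h2], h3⟩)
      · exact absurd (hinj u v (by rw [h1, h2]) h3) huv
      · rw [segment_symm]
        exact key v u huv.symm hn' (Or.inr ⟨by rw [h1, h2], h3⟩)
  obtain ⟨O₁, hO1, hO2, hO3⟩ := two_obstacles G q O₂ hE2 hV2 hH2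
  exact ⟨q, O₁, O₂, hqinj, hO1, hconv.isPreconnected, hO2, hO3⟩

end Pool.Agent.Helper1.TD
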