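import Pool.Agent.Helper1.TD.TwoTip
import Pool.Agent.Helper1.TD.Strip

set_option autoImplicit false

/-!
Disjoint unions of two-disc triangulations have obstacle number at most two.
-/

namespace Pool.Agent.Helper1.TD

open Pool.Agent.Helper1.Lev Filter Topology

/-- Two triangulated polygons and the strip between them. -/
structure Ann where
  p : ℕ
  q : ℕ
  P : SimpleGraph (Fin p)
  Q : SimpleGraph (Fin q)
  α : ℕ → ℕ
  β : ℕ → ℕ
  hP : Tri P
  hQ : Tri Q
  hS : IsStrip p q α β

/-- the adjacency of a two-disc triangulation -/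
def rel {p q : ℕ} (P : SimpleGraph (Fin p)) (Q : SimpleGraph (Fin q)) (α β : ℕ → ℕ) :
    Fin p ⊕ Fin q → Fin p ⊕ Fin q → Prop
  | Sum.inl i, Sum.inl i' => P.Adj i i'
  | Sum.inr j, Sum.inr j' => Q.Adj j j'
  | Sum.inl i, Sum.inr j => OnPath p q α β i.val j.val ∨ (i.val + 1 = p ∧ j.val = 0)
  | Sum.inr j, Sum.inl i => OnPath p q α β i.val j.val ∨ (i.val + 1 = p ∧ j.val = 0)

/-- the two-disc triangulation -/
def annulus {p q : ℕ} (P : SimpleGraph (Fin p)) (Q : SimpleGraph (Fin q)) (α β : ℕ → ℕ) :
    SimpleGraph (Fin p ⊕ Fin q) where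
  Adj := rel P Q α β
  symm := ⟨by
    rintro (i | j) (i' | j') h
    · exact SimpleGraph.Adj.symm (G := P) h
    · exact h
    · exact h
    · exact SimpleGraph.Adj.symm (G := Q) h⟩
  loopless := ⟨by
    rintro (i | j) h
    · exact P.loopless.irrefl _ h
    · exact Q.loopless.irrefl _ h⟩

def Ann.graph (T : Ann) : SimpleGraph (Fin T.p ⊕ Fin T.q) := annulus T.P T.Q T.α T.β

/-- the vertices of the union -/
abbrev VV {C : Type} (T : C → Ann) : Type := Σ c, Fin (T c).p ⊕ Fin (T c).q

/-- the disjoint union -/
def uni {C : Type} (T : C → Ann) : SimpleGraph (VV T) where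
  Adj a b := ∃ c u v, (T c).graph.Adj u v ∧ a = ⟨c, u⟩ ∧ b = ⟨c, v⟩
  symm := ⟨by
    rintro a b ⟨c, u, v, h, h1, h2⟩
    exact ⟨c, v, u, h.symm, h2, h1⟩⟩
  loopless := ⟨by
    rintro a ⟨c, u, v, h, h1, h2⟩
    rw [h1] at h2
    have := eq_of_heq (Sigma.mk.inj h2).2
    exact h.ne this⟩

theorem uni_adj {C : Type} (T : C → Ann) (c : C) (u v : Fin (T c).p ⊕ Fin (T c).q) :
    (uni T).Adj ⟨c, u⟩ ⟨c, v⟩ ↔ (T c).graph.Adj u v := by
  constructor
  · rintro ⟨c', u', v', h, h1, h2⟩
    obtain ⟨rfl, h3⟩ := Sigma.mk.inj h1
    obtain ⟨-, h4⟩ := Sigma.mk.inj h2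
    rw [eq_of_heq h3, eq_of_heq h4]
    exact h
  · intro h
    exact ⟨c, u, v, h, rfl, rfl⟩

theorem uni_comp {C : Type} (T : C → Ann) {a b : VV T} (h : (uni T).Adj a b) : a.1 = b.1 := by
  obtain ⟨c, u, v, -, rfl, rfl⟩ := h
  rfl

/-- levels as positive ratios -/
theorem level_of_ratio {V : Type} (x : V → ℝ) (r : ℝ) (hr : 0 < r) :
    ∃ l : ℝ, -1 < l ∧ l < 1 ∧ ∀ u v c e : V, x u + r * x v < x c + r * x e →
      XX x l u v < XX x l c e := by
  refine ⟨(r - 1) / (r + 1), ?_, ?_, ?_⟩
  · rw [lt_div_iff₀ (by linarith)]; linarith
  · rw [div_lt_iff₀ (by linarith)]; linarith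
  · intro u v c e h
    have e1 : 1 - (r - 1) / (r + 1) = 2 / (r + 1) := by field_simp; ring
    have e2 : 1 + (r - 1) / (r + 1) = 2 / (r + 1) * r := by field_simp; ring
    unfold XX
    rw [e1, e2]
    have h3 : 0 < 2 / (r + 1) := by positivity
    have := mul_lt_mul_of_pos_left h h3
    linarith

theorem exists_distinct {C : Type} [Fintype C] (S L : C → ℝ) (h : ∀ c, S c < L c) :
    ∃ τ : C → ℝ, Function.Injective τ ∧ ∀ c, S c < τ c ∧ τ c < L c := by
  classical
  have key : ∀ F : Finset C, ∃ τ : C → ℝ, Set.InjOn τ (F : Set C) ∧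
      ∀ c, S c < τ c ∧ τ c < L c := by
    intro F
    induction F using Finset.induction_on with
    | empty =>
      exact ⟨fun c => (S c + L c) / 2, by simp, fun c => by
        have := h c
        constructor <;> simp only <;> linarith⟩
    | insert a F ha ih =>
      obtain ⟨τ, h1, h2⟩ := ih
      obtain ⟨t, ht1, ht2⟩ := (Set.Ioo_infinite (h a)).exists_notMem_finset (F.image τ)
      refine ⟨Function.update τ a t, ?_, ?_⟩
      · intro c hc c' hc' hcc
        by_cases e1 : c = a
        · by_cases e2 : c' = a
          · rw [e1, e2]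
          · exfalso
            subst e1
            rw [Function.update_self, Function.update_of_ne e2] at hcc
            have : c' ∈ F := by
              rcases Finset.mem_insert.1 (Finset.mem_coe.1 hc') with g | g
              · exact absurd g e2
              · exact g
            exact ht2 (Finset.mem_image.2 ⟨c', this, hcc.symm⟩)
        · by_cases e2 : c' = a
          · exfalso
            subst e2
            rw [Function.update_self, Function.update_of_ne e1] at hcc
            have : c ∈ F := by
              rcases Finset.mem_insert.1 (Finset.mem_coe.1 hc) with g | g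
              · exact absurd g e1
              · exact g
            exact ht2 (Finset.mem_image.2 ⟨c, this, hcc⟩)
          · rw [Function.update_of_ne e1, Function.update_of_ne e2] at hcc
            refine h1 ?_ ?_ hcc
            · rcases Finset.mem_insert.1 (Finset.mem_coe.1 hc) with g | g
              · exact absurd g e1
              · exact g
            · rcases Finset.mem_insert.1 (Finset.mem_coe.1 hc') with g | g
              · exact absurd g e2
              · exact g
      · intro c
        by_cases e1 : c = a
        · subst e1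
          rw [Function.update_self]
          exact ht1
        · rw [Function.update_of_ne e1]
          exact h2 c
  obtain ⟨τ, h1, h2⟩ := key Finset.univ
  exact ⟨τ, fun c c' hcc => h1 (by simp) (by simp) hcc, h2⟩

theorem union_two_obstacles {C : Type} [Fintype C] (T : C → Ann) :
    ∃ (q : VV T → ℝ × ℝ) (O₁ O₂ : Set (ℝ × ℝ)),
      Function.Injective q ∧ IsPreconnected O₁ ∧ IsPreconnected O₂ ∧
      (∀ v : VV T, q v ∉ O₁ ∪ O₂) ∧
      (∀ u v : VV T, u ≠ v →
        ((uni T).Adj u v ↔ Disjoint (segment ℝ (q u) (q v)) (O₁ ∪ O₂))) := by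
  classical
  have hpos := fun c => strip_pos (T c).hS
  choose y z S L hy hz hS1 hSL hc1 hc2 hc3 hc4 using hpos
  obtain ⟨τ, hτi, hτ⟩ := exists_distinct S L hSL
  -- bound
  have hR : ∃ R : ℝ, 0 < R ∧ (∀ c i, |y c i| < R) ∧ (∀ c j, |z c j| < R) ∧ ∀ c, L c < R := by
    have h1 : ∀ᶠ R : ℝ in atTop, 0 < R ∧ (∀ c i, |y c i| < R) ∧ (∀ c j, |z c j| < R) ∧
        ∀ c, L c < R := by
      refine (eventually_gt_atTop 0).and (Eventually.and ?_ (Eventually.and ?_ ?_))
      · rw [eventually_all]; intro c
        rw [eventually_all]; intro i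
        exact eventually_gt_atTop _
      · rw [eventually_all]; intro c
        rw [eventually_all]; intro i
        exact eventually_gt_atTop _
      · rw [eventually_all]; intro c
        exact eventually_gt_atTop _
    exact h1.exists
  obtain ⟨R, hR0, hRy, hRz, hRL⟩ := hR
  have hH : ∃ H : ℝ, 0 < H ∧ (∀ c, R < H * (τ c - 1)) ∧ (∀ c, R < H * (τ c - S c)) ∧
      (∀ c, R < H * (L c - τ c)) ∧ ∀ c c', τ c < τ c' → 4 * R + 4 < H * (τ c' - τ c) := by
    have key : ∀ (b r : ℝ), 0 < b → ∀ᶠ H : ℝ in atTop, r < H * b := fun b r hb =>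
      (tendsto_id.atTop_mul_const hb).eventually_gt_atTop r
    have h1 : ∀ᶠ H : ℝ in atTop, 0 < H ∧ (∀ c, R < H * (τ c - 1)) ∧
        (∀ c, R < H * (τ c - S c)) ∧ (∀ c, R < H * (L c - τ c)) ∧
        ∀ c c', τ c < τ c' → 4 * R + 4 < H * (τ c' - τ c) := by
      refine (eventually_gt_atTop 0).and (Eventually.and ?_ (Eventually.and ?_
        (Eventually.and ?_ ?_)))
      · rw [eventually_all]; intro c
        exact key _ _ (by linarith [hS1 c, (hτ c).1])
      · rw [eventually_all]; intro c
        exact key _ _ (by linarith [(hτ c).1])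
      · rw [eventually_all]; intro c
        exact key _ _ (by linarith [(hτ c).2])
      · rw [eventually_all]; intro c
        rw [eventually_all]; intro c'
        by_cases h : τ c < τ c'
        · filter_upwards [key _ (4 * R + 4) (sub_pos.2 h)] with H h2 _
          exact h2
        · exact Eventually.of_forall fun _ h' => absurd h' h
    exact h1.exists
  obtain ⟨H, hH0, hH1, hH2, hH3, hH4⟩ := hH
  -- the data
  obtain ⟨x, xl, xr⟩ : ∃ x : VV T → ℝ, (∀ c i, x ⟨c, Sum.inl i⟩ = y c i + H * τ c) ∧
      ∀ c j, x ⟨c, Sum.inr j⟩ = -(z c j + H * τ c) :=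
    ⟨fun a => match a with
      | ⟨c, Sum.inl i⟩ => y c i + H * τ c
      | ⟨c, Sum.inr j⟩ => -(z c j + H * τ c), fun _ _ => rfl, fun _ _ => rfl⟩
  obtain ⟨s, sl, sr⟩ : ∃ s : VV T → ℝ, (∀ c i, s ⟨c, Sum.inl i⟩ = -1) ∧
      ∀ c j, s ⟨c, Sum.inr j⟩ = 1 :=
    ⟨fun a => match a with
      | ⟨_, Sum.inl _⟩ => -1
      | ⟨_, Sum.inr _⟩ => 1, fun _ _ => rfl, fun _ _ => rfl⟩
  obtain ⟨dep, dl, dr⟩ : ∃ dep : VV T → ℕ, (∀ c i, dep ⟨c, Sum.inl i⟩ = nest (T c).P i) ∧
      ∀ c j, dep ⟨c, Sum.inr j⟩ = nest (T c).Q j :=
    ⟨fun a => match a with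
      | ⟨c, Sum.inl i⟩ => nest (T c).P i
      | ⟨c, Sum.inr j⟩ => nest (T c).Q j, fun _ _ => rfl, fun _ _ => rfl⟩
  -- the centre of a block
  obtain ⟨m, mm⟩ : ∃ m : VV T → ℝ, ∀ a, m a = - s a * (H * τ a.1) := ⟨_, fun _ => rfl⟩
  have hm : ∀ a, |x a - m a| < R := by
    rintro ⟨c, i | j⟩
    · rw [mm, xl, sl]
      have : y c i + H * τ c - -(-1 : ℝ) * (H * τ c) = y c i := by ring
      rw [this]; exact hRy c i
    · rw [mm, xr, sr]
      have : -(z c j + H * τ c) - -(1 : ℝ) * (H * τ c) = -(z c j) := by ring
      rw [this, abs_neg]; exact hRz c j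
  have hs : ∀ v, s v = 1 ∨ s v = -1 := by
    rintro ⟨c, i | j⟩
    · right; exact sl c i
    · left; exact sr c j
  have hfar : ∀ a b : VV T, s a = s b → a.1 ≠ b.1 → 4 * R + 4 < |m a - m b| := by
    intro a b hab hne
    have e : m a - m b = - s b * (H * (τ a.1 - τ b.1)) := by
      rw [mm, mm, hab]; ring
    have h1 : 4 * R + 4 < |H * (τ a.1 - τ b.1)| := by
      rcases lt_trichotomy (τ a.1) (τ b.1) with h | h | h
      · have := hH4 _ _ h
        rw [lt_abs]; right; linarith
      · exact absurd (hτi h) hne
      · have := hH4 _ _ h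
        rw [lt_abs]; left; linarith
    rw [e, abs_mul]
    rcases hs b with h | h
    · rw [h]; simpa using h1
    · rw [h]; simpa using h1
  have hfar' : ∀ a b : VV T, s a = s b → a.1 ≠ b.1 → x a < x b →
      m a + R + 1 < m b - R - 1 := by
    intro a b hab hne hlt
    have h1 := abs_lt.1 (hm a)
    have h2 := abs_lt.1 (hm b)
    rcases lt_abs.1 (hfar a b hab hne) with h | h
    · exfalso; linarith [h1.1, h1.2, h2.1, h2.2]
    · linarith
  refine twoTip (uni T) x s dep (fun a b => 1 < x a + x b) hs ?_ ?_ ?_
  · -- injectivity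
    intro a b hab hx
    have hc : a.1 = b.1 := by
      by_contra hne
      have h1 := abs_lt.1 (hm a)
      have h2 := abs_lt.1 (hm b)
      rcases lt_abs.1 (hfar a b hab hne) with h | h <;>
        linarith [h1.1, h1.2, h2.1, h2.2]
    obtain ⟨c, a⟩ := a
    obtain ⟨c', b⟩ := b
    obtain rfl : c = c' := hc
    rcases a with i | j <;> rcases b with i' | j'
    · rw [xl, xl] at hx
      have : y c i = y c i' := by linarith
      rw [(hy c).injective this]
    · rw [sl, sr] at hab; norm_num at hab
    · rw [sl, sr] at hab; norm_num at hab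
    · rw [xr, xr] at hx
      have : z c j = z c j' := by linarith
      rw [(hz c).injective this]
  · -- exposed non-edges
    intro u v huv hlt hn
    by_cases hc : u.1 = v.1
    · obtain ⟨c, u⟩ := u
      obtain ⟨c', v⟩ := v
      obtain rfl : c = c' := hc
      have hblock : ∀ (k a b : VV T), k.1 = c → (uni T).Adj a b → s a = s k → s b = s k →
          x a < x k → x k < x b → a.1 = c := by
        intro k a b hk hab h1 h2 h3 h4
        by_contra hne
        have g1 := hfar' a k h1 (by rw [hk]; exact hne) h3
        have g2 := hfar' k b h2.symm (by rw [hk, ← uni_comp T hab]; exact fun h => hne h.symm)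
          h4
        have g3 : m a = m b := by
          rw [mm, mm, uni_comp T hab, h1, h2]
        linarith
      rcases u with i | j <;> rcases v with i' | j'
      · rw [xl, xl] at hlt
        have hij : i < i' := by
          have : y c i < y c i' := by linarith
          exact (hy c).lt_iff_lt.1 this
        have hn' : ¬ (T c).P.Adj i i' := fun h => hn ((uni_adj T c _ _).2 h)
        obtain ⟨k, hk1, hk2, w, hw, hk3, hk4⟩ := exposed (T c).hP hij hn'
        refine ⟨x ⟨c, Sum.inl k⟩, ?_, ?_, ⟨c, Sum.inl w⟩, ?_, ?_, ?_⟩
        · rw [xl, xl]; linarith [hy c hk1]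
        · rw [xl, xl]; linarith [hy c hk2]
        · rcases hw with rfl | rfl
          · left; rfl
          · right; rfl
        · rintro ⟨c', a⟩ h1 h2
          have hcc : c' = c := by
            by_contra hne
            have g1 := abs_lt.1 (hm ⟨c', a⟩)
            have g2 := abs_lt.1 (hm ⟨c, Sum.inl k⟩)
            rcases lt_abs.1 (hfar ⟨c', a⟩ ⟨c, Sum.inl k⟩ (by rw [h1, sl, sl]) hne) with h | h <;>
              linarith [g1.1, g1.2, g2.1, g2.2]
          subst hcc
          rcases a with a | a
          · rw [xl, xl] at h2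
            have : y c' a = y c' k := by linarith
            rw [(hy c').injective this, dl, dl]
            exact hk3
          · rw [sl, sr] at h1; norm_num at h1
        · intro a b hab h1 h2 h3 h4
          have hac := hblock ⟨c, Sum.inl k⟩ a b rfl hab (by rw [h1, sl, sl])
            (by rw [h2, sl, sl]) h3 h4
          have hbc := (uni_comp T hab).symm.trans hac
          obtain ⟨ca, a⟩ := a
          obtain ⟨cb, b⟩ := b
          obtain rfl : ca = c := hac
          obtain rfl : cb = ca := hbc
          rcases a with a | a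
          · rcases b with b | b
            · rw [xl, xl] at h3 h4
              rw [dl, dl, dl]
              exact hk4 a b ((uni_adj T _ _ _).1 hab)
                ((hy cb).lt_iff_lt.1 (by linarith)) ((hy cb).lt_iff_lt.1 (by linarith))
            · rw [sl, sr] at h2; norm_num at h2
          · rw [sl, sr] at h1; norm_num at h1
      · rw [sl, sr] at huv; norm_num at huv
      · rw [sl, sr] at huv; norm_num at huv
      · rw [xr, xr] at hlt
        have hij : j' < j := by
          have : z c j' < z c j := by linarith
          exact (hz c).lt_iff_lt.1 this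
        have hn' : ¬ (T c).Q.Adj j' j := fun h => hn ((uni_adj T c _ _).2 h.symm)
        obtain ⟨k, hk1, hk2, w, hw, hk3, hk4⟩ := exposed (T c).hQ hij hn'
        refine ⟨x ⟨c, Sum.inr k⟩, ?_, ?_, ⟨c, Sum.inr w⟩, ?_, ?_, ?_⟩
        · rw [xr, xr]; linarith [hz c hk2]
        · rw [xr, xr]; linarith [hz c hk1]
        · rcases hw with rfl | rfl
          · right; rfl
          · left; rfl
        · rintro ⟨c', a⟩ h1 h2
          have hcc : c' = c := by
            by_contra hne
            have g1 := abs_lt.1 (hm ⟨c', a⟩)
            have g2 := abs_lt.1 (hm ⟨c, Sum.inr k⟩)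
            rcases lt_abs.1 (hfar ⟨c', a⟩ ⟨c, Sum.inr k⟩ (by rw [h1, sr, sr]) hne) with h | h <;>
              linarith [g1.1, g1.2, g2.1, g2.2]
          subst hcc
          rcases a with a | a
          · rw [sl, sr] at h1; norm_num at h1
          · rw [xr, xr] at h2
            have : z c' a = z c' k := by linarith
            rw [(hz c').injective this, dr, dr]
            exact hk3
        · intro a b hab h1 h2 h3 h4
          have hac := hblock ⟨c, Sum.inr k⟩ a b rfl hab (by rw [h1, sr, sr])
            (by rw [h2, sr, sr]) h3 h4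
          have hbc := (uni_comp T hab).symm.trans hac
          obtain ⟨ca, a⟩ := a
          obtain ⟨cb, b⟩ := b
          obtain rfl : ca = c := hac
          obtain rfl : cb = ca := hbc
          rcases a with a | a
          · rw [sl, sr] at h1; norm_num at h1
          · rcases b with b | b
            · rw [sl, sr] at h2; norm_num at h2
            · rw [xr, xr] at h3 h4
              rw [dr, dr, dr]
              have := hk4 b a ((uni_adj T _ _ _).1 hab.symm)
                ((hz cb).lt_iff_lt.1 (by linarith)) ((hz cb).lt_iff_lt.1 (by linarith))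
              exact ⟨this.2, this.1⟩
    · -- different components
      refine ⟨m u + R + 1 / 2, ?_, ?_, u, Or.inl rfl, ?_, ?_⟩
      · have := abs_lt.1 (hm u)
        linarith
      · have h1 := hfar' u v huv hc hlt
        have h2 := abs_lt.1 (hm v)
        linarith
      · intro k h1 h2
        exfalso
        have h3 := abs_lt.1 (hm u)
        have h4 := abs_lt.1 (hm k)
        by_cases hk : u.1 = k.1
        · have : m u = m k := by
            rw [mm, mm, hk, h1]
          linarith
        · have := hfar' u k h1.symm hk (by linarith)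
          linarith
      · intro a b hab h1 h2 h3 h4
        exfalso
        have g1 := abs_lt.1 (hm u)
        have g2 := abs_lt.1 (hm a)
        have g3 := abs_lt.1 (hm b)
        have g4 : m a = m b := by
          rw [mm, mm, uni_comp T hab, h1, h2]
        by_cases hk : u.1 = b.1
        · have : m u = m b := by
            rw [mm, mm, hk, h2]
          linarith
        · have := hfar' u b h2.symm hk (by linarith)
          linarith
  · -- cross non-edges
    -- edges
    have hedge : ∀ a b, s a = -1 → s b = 1 → (uni T).Adj a b → ∃ c i j,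
        a = ⟨c, Sum.inl i⟩ ∧ b = ⟨c, Sum.inr j⟩ ∧
        (|y c i - z c j| < 1 ∨ (i.val + 1 = (T c).p ∧ j.val = 0 ∧ y c i - z c j = L c)) := by
      rintro ⟨c, a⟩ ⟨c', b⟩ h1 h2 hab
      obtain rfl : c = c' := uni_comp T hab
      rcases a with i | j
      · rcases b with i' | j'
        · rw [sl] at h2; norm_num at h2
        · refine ⟨c, i, j', rfl, rfl, ?_⟩
          rcases (uni_adj T _ _ _).1 hab with h | h
          · left; exact hc3 c i j' h
          · right; exact ⟨h.1, h.2, hc1 c i j' h.1 h.2⟩
      · rw [sr] at h1; norm_num at h1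
    have hL1 : ∀ c, 1 < L c := fun c => by linarith [hS1 c, hSL c]
    intro u v hu hv hn
    obtain ⟨c, u⟩ := u
    obtain ⟨c', v⟩ := v
    rcases u with i | i
    swap
    · rw [sr] at hu; norm_num at hu
    rcases v with j | j
    · rw [sl] at hv; norm_num at hv
    by_cases hcc : c = c'
    · subst hcc
      have hn' : ¬ (OnPath (T c).p (T c).q (T c).α (T c).β i.val j.val ∨
          (i.val + 1 = (T c).p ∧ j.val = 0)) := fun h => hn ((uni_adj T c _ _).2 h)
      rw [not_or] at hn'
      have h1 := hc4 c i j hn'.1
      have h2 := hc2 c i j hn'.2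
      rcases lt_abs.1 h1 with h | h
      · -- the hole
        set Y := y c i + H * τ c with hY
        set Z := z c j + H * τ c with hZ
        have hzj := abs_lt.1 (hRz c j)
        have hZH : 0 < Z - H := by
          have := hH1 c
          rw [hZ]; linarith
        set r := (Y - H - 1) / (Z - H) with hr
        have hrZ : r * (Z - H) = Y - H - 1 := by
          rw [hr, div_mul_cancel₀ _ hZH.ne']
        have hr1 : 1 < r := by
          rw [hr, lt_div_iff₀ hZH, hY, hZ]; linarith
        have hr2 : (r - 1) * H < 1 := by
          have e1 : (r - 1) * (Z - H) = Y - Z - 1 := by linarith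
          have e2 : H * (Y - Z) < Z := by
            have := hH2 c
            have h3 : H * (Y - Z) ≤ H * S c := by
              apply mul_le_mul_of_nonneg_left _ hH0.le
              rw [hY, hZ]; linarith
            rw [hZ]; linarith
          have e3 : (r - 1) * H * (Z - H) < 1 * (Z - H) := by
            calc (r - 1) * H * (Z - H) = H * ((r - 1) * (Z - H)) := by ring
              _ = H * (Y - Z) - H := by rw [e1]; ring
              _ < 1 * (Z - H) := by linarith
          exact lt_of_mul_lt_mul_right e3 hZH.le
        obtain ⟨l, hl1, hl2, hl3⟩ := level_of_ratio x r (by linarith)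
        refine ⟨l, hl1, hl2, Or.inr (Or.inr ?_)⟩
        intro a b ha hb hab
        obtain ⟨c', i', j', rfl, rfl, hd⟩ := hedge a b ha hb hab
        have hz' := abs_lt.1 (hRz c' j')
        have hH1' := hH1 c'
        have hH3' := hH3 c'
        have hZ' : H < z c' j' + H * τ c' := by linarith
        constructor
        · intro hU
          apply hl3
          rw [xl, xr, xl, xr]
          have hLc : y c' i' - z c' j' = L c' := by
            rcases hd with hd | hd
            · exfalso
              have hU' : 1 < y c' i' + H * τ c' + -(z c' j' + H * τ c') := by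
                rw [← xl, ← xr]; exact hU
              have := (abs_lt.1 hd).2
              linarith
            · exact hd.2.2
          -- Y' > (1 + 1/H) Z'
          have e1 : z c' j' + H * τ c' < H * L c' := by linarith
          have e2 : (1 - (r - 1) * H) * (z c' j' + H * τ c' - H) > 0 :=
            mul_pos (by linarith) (by linarith)
          have e3 : H * (Y - r * Z) = H * (H + 1 - r * H) := by
            have : Y - r * Z = H + 1 - r * H := by linarith
            rw [this]
          have e4 : H * (Y - r * Z) < H * (y c' i' + H * τ c' - r * (z c' j' + H * τ c')) := by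
            have e5 : y c' i' = z c' j' + L c' := by linarith
            rw [e3, e5]
            nlinarith
          have e6 := lt_of_mul_lt_mul_left e4 hH0.le
          linarith
        · intro hU
          apply hl3
          rw [xl, xr, xl, xr]
          have hlt1 : y c' i' - z c' j' < 1 := by
            rcases hd with hd | hd
            · exact (abs_lt.1 hd).2
            · exfalso
              apply hU
              show 1 < x ⟨c', Sum.inl i'⟩ + x ⟨c', Sum.inr j'⟩
              rw [xl, xr]
              have := hL1 c'
              linarith [hd.2.2]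
          have e2 : 0 < (r - 1) * (z c' j' + H * τ c' - H) :=
            mul_pos (by linarith) (by linarith)
          have e1 : Y - r * Z = H + 1 - r * H := by linarith
          nlinarith
      · -- below the band
        obtain ⟨l, hl1, hl2, hl3⟩ := level_of_ratio x 1 one_pos
        refine ⟨l, hl1, hl2, Or.inl ?_⟩
        intro a b ha hb hab
        obtain ⟨c', i', j', rfl, rfl, hd⟩ := hedge a b ha hb hab
        apply hl3
        rw [xl, xr, xl, xr]
        rcases hd with hd | hd
        · have := (abs_lt.1 hd).1
          linarith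
        · have := hL1 c'
          linarith [hd.2.2]
    · -- different components
      have hyi := abs_lt.1 (hRy c i)
      have hzj := abs_lt.1 (hRz c' j)
      obtain ⟨l, hl1, hl2, hl3⟩ := level_of_ratio x 1 one_pos
      rcases lt_trichotomy (τ c) (τ c') with h | h | h
      · refine ⟨l, hl1, hl2, Or.inl ?_⟩
        have h5 := hH4 _ _ h
        intro a b ha hb hab
        obtain ⟨c'', i', j', rfl, rfl, hd⟩ := hedge a b ha hb hab
        apply hl3
        rw [xl, xr, xl, xr]
        rcases hd with hd | hd
        · have := (abs_lt.1 hd).1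
          linarith
        · have := hL1 c''
          linarith [hd.2.2]
      · exact absurd (hτi h) hcc
      · refine ⟨l, hl1, hl2, Or.inr (Or.inl ?_)⟩
        have h5 := hH4 _ _ h
        intro a b ha hb hab
        obtain ⟨c'', i', j', rfl, rfl, hd⟩ := hedge a b ha hb hab
        apply hl3
        rw [xl, xr, xl, xr]
        rcases hd with hd | hd
        · have := (abs_lt.1 hd).2
          linarith
        · have := hRL c''
          linarith [hd.2.2]

end Pool.Agent.Helper1.TD
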